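import Pool.Agent.Q62.CC.Sto

set_option autoImplicit false

/-!
Project CC, statement `S_ANG`: a continuous angle function is smooth, with the usual derivatives.
-/

open Set Filter Topology
open scoped ContDiff

namespace Pool.Agent.Q62.CC.Ang

open Pool.Agent.Q62.CC
open Pool.Agent.Q61.NC (Sp pd)

/-- the linear map `x ↦ c (x j + i x k)` -/
noncomputable def LL {d : ℕ} (c : ℂ) (j k : Fin d) : Sp d →L[ℝ] ℂ :=
  (EuclideanSpace.proj j : Sp d →L[ℝ] ℝ).smulRight c +
    (EuclideanSpace.proj k : Sp d →L[ℝ] ℝ).smulRight (c * Complex.I)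

lemma LL_apply {d : ℕ} (c : ℂ) (j k : Fin d) (x : Sp d) :
    LL c j k x = c * ((x j : ℂ) + (x k : ℂ) * Complex.I) := by
  have h : LL c j k x = (x j) • c + (x k) • (c * Complex.I) := rfl
  rw [h, Complex.real_smul, Complex.real_smul]
  ring

/-- near a point of the slit plane, `arg ∘ L` is smooth. -/
lemma cd {d : ℕ} (c : ℂ) (j k : Fin d) {x : Sp d} (hx : LL c j k x ∈ Complex.slitPlane) :
    ContDiffAt ℝ ∞ (fun x : Sp d => Complex.arg (LL c j k x)) x := by
  have he : (fun x : Sp d => Complex.arg (LL c j k x)) =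
      fun x => Complex.imCLM (Complex.log (LL c j k x)) := by
    funext x
    simp [Complex.log_im]
  rw [he]
  have h1 : ContDiffAt ℝ ∞ Complex.log (LL c j k x) :=
    (Complex.contDiffAt_log hx).restrict_scalars ℝ
  exact Complex.imCLM.contDiff.contDiffAt.comp x
    (h1.comp x (LL c j k).contDiff.contDiffAt)

lemma hd {d : ℕ} (c : ℂ) (j k : Fin d) {x : Sp d} (hx : LL c j k x ∈ Complex.slitPlane) (v : Sp d) :
    fderiv ℝ (fun x : Sp d => Complex.arg (LL c j k x)) x v =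
      ((LL c j k x)⁻¹ * LL c j k v).im := by
  have he : (fun x : Sp d => Complex.arg (LL c j k x)) =
      fun x => Complex.imCLM (Complex.log (LL c j k x)) := by
    funext x
    simp [Complex.log_im]
  rw [he]
  have h1 : HasFDerivAt Complex.log
      ((ContinuousLinearMap.toSpanSingleton ℂ ((LL c j k x)⁻¹) : ℂ →L[ℂ] ℂ).restrictScalars ℝ)
      (LL c j k x) :=
    (Complex.hasStrictDerivAt_log hx).hasDerivAt.hasFDerivAt.restrictScalars ℝ
  have h2 := Complex.imCLM.hasFDerivAt.comp x (h1.comp x (LL c j k).hasFDerivAt)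
  have h3 := h2.fderiv
  have h4 : (⇑Complex.imCLM ∘ Complex.log ∘ ⇑(LL c j k)) =
      fun x => Complex.imCLM (Complex.log (LL c j k x)) := rfl
  rw [h4] at h3
  rw [h3]
  simp [mul_comm]

/-- The value of `L` in polar form. -/
lemma polar {d : ℕ} {j k : Fin d} {N : Set (Sp d)} {θ : Sp d → ℝ} (hθ : IsAngle j k N θ) (α : ℝ)
    {x : Sp d} (hx : x ∈ N) :
    LL (Complex.exp (-(α * Complex.I))) j k x =
      ((√(N2 j k x) : ℝ) : ℂ) * (Complex.cos ((θ x - α : ℝ) : ℂ) + Complex.sin ((θ x - α : ℝ) : ℂ) * Complex.I) := by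
  rw [LL_apply]
  have h1 : ((x j : ℂ) + (x k : ℂ) * Complex.I) =
      ((√(N2 j k x) : ℝ) : ℂ) * Complex.exp ((θ x : ℂ) * Complex.I) := by
    rw [Complex.exp_mul_I, hθ.cos x hx, hθ.sin x hx]
    push_cast
    ring
  rw [h1, ← Complex.exp_mul_I]
  rw [mul_left_comm, ← Complex.exp_add]
  congr 2
  push_cast
  ring

theorem t_ANG : S_ANG := by
  intro d j k hjk N θ hN hpos hθ
  -- local form
  have key : ∀ x₀ ∈ N, LL (Complex.exp (-(θ x₀ * Complex.I))) j k x₀ ∈ Complex.slitPlane ∧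
      θ =ᶠ[𝓝 x₀] fun x => θ x₀ + Complex.arg (LL (Complex.exp (-(θ x₀ * Complex.I))) j k x) := by
    intro x₀ hx₀
    constructor
    · rw [polar hθ (θ x₀) hx₀]
      simp only [sub_self, Complex.ofReal_zero, Complex.cos_zero, Complex.sin_zero, zero_mul,
        add_zero, mul_one]
      exact Complex.ofReal_mem_slitPlane.2 (Real.sqrt_pos.2 (hpos x₀ hx₀))
    · have hc : ContinuousAt θ x₀ := hθ.cont.continuousAt (hN.mem_nhds hx₀)
      have h1 : ∀ᶠ x in 𝓝 x₀, θ x ∈ Metric.ball (θ x₀) Real.pi :=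
        hc (Metric.ball_mem_nhds _ Real.pi_pos)
      filter_upwards [h1, hN.mem_nhds hx₀] with x hx hxN
      rw [Metric.mem_ball, Real.dist_eq, abs_lt] at hx
      rw [polar hθ (θ x₀) hxN, Complex.arg_mul_cos_add_sin_mul_I (Real.sqrt_pos.2 (hpos x hxN))
        ⟨hx.1, hx.2.le⟩]
      ring
  have hcd : ContDiffOn ℝ ∞ θ N := by
    intro x₀ hx₀
    obtain ⟨h1, h2⟩ := key x₀ hx₀
    have h3 : ContDiffAt ℝ ∞
        (fun x => θ x₀ + Complex.arg (LL (Complex.exp (-(θ x₀ * Complex.I))) j k x)) x₀ :=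
      contDiffAt_const.add (cd _ j k h1)
    exact (h3.congr_of_eventuallyEq h2).contDiffWithinAt
  refine ⟨hcd, fun x₀ hx₀ i => ?_⟩
  obtain ⟨h1, h2⟩ := key x₀ hx₀
  unfold pd
  rw [h2.fderiv_eq, fderiv_const_add, hd _ j k h1, LL_apply, LL_apply]
  have hE : Complex.exp (-(θ x₀ * Complex.I)) ≠ 0 := Complex.exp_ne_zero _
  rw [mul_inv, mul_mul_mul_comm, inv_mul_cancel₀ hE, one_mul]
  have hN2 : 0 < N2 j k x₀ := hpos x₀ hx₀
  have hkj : k ≠ j := hjk.symm
  by_cases hij : i = j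
  · subst hij
    simp [Complex.inv_im, Complex.normSq_apply, N2, hkj, pow_two, neg_div]
  · by_cases hik : i = k
    · subst hik
      simp [Complex.inv_im, Complex.inv_re, Complex.normSq_apply, N2, hij, pow_two, Ne.symm hij]
    · simp [hij, hik, Ne.symm hij, Ne.symm hik]

end Pool.Agent.Q62.CC.Ang
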