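import Pool.Agent.Q61.NC.Flat
import Pool.Agent.Q61.NC.GDefs

/-!
# Flows between coaxial cylinders: definitions
-/

set_option autoImplicit false

open Set Filter Topology MeasureTheory
open scoped ENNReal ContDiff

namespace Pool.Agent.Q62.CC

open Pool.Agent.Q61.NC (IsJet Bd mulJ Good sh Sp pd StopsIn)

/-! ### Weights and the two fundamental solutions -/

/-- A smooth positive weight on `(x₀, x₁)`, bounded by `M`, decreasing on `[α, β] ⊂ (x₀, x₁)`. -/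
structure Wt (m : ℝ → ℝ) (x₀ x₁ α β M c : ℝ) : Prop where
  h0 : x₀ < α
  hab : α < β
  h1 : β < x₁
  hc : 0 < c
  smooth : ContDiffOn ℝ ∞ m (Ioo x₀ x₁)
  pos : ∀ x ∈ Ioo x₀ x₁, 0 < m x
  le : ∀ x ∈ Ioo x₀ x₁, m x ≤ M
  decr : ∀ x ∈ Icc α β, deriv m x ≤ -(c * m x)

/-- Coefficients of the solution of `y'' = z m y`, `y α = 1`, `y' α = 0`. -/
noncomputable def cf (m : ℝ → ℝ) (α : ℝ) : ℕ → ℝ → ℝ
  | 0 => fun _ => 1
  | k + 1 => fun x => ∫ y in α..x, (x - y) * (m y * cf m α k y)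

/-- Derivatives of the `cf`. -/
noncomputable def cd (m : ℝ → ℝ) (α : ℝ) : ℕ → ℝ → ℝ
  | 0 => fun _ => 0
  | k + 1 => fun x => ∫ y in α..x, m y * cf m α k y

/-- Coefficients of the solution of `y'' = z m y`, `y α = 0`, `y' α = 1`. -/
noncomputable def sf (m : ℝ → ℝ) (α : ℝ) : ℕ → ℝ → ℝ
  | 0 => fun x => x - α
  | k + 1 => fun x => ∫ y in α..x, (x - y) * (m y * sf m α k y)

/-- Derivatives of the `sf`. -/
noncomputable def sd (m : ℝ → ℝ) (α : ℝ) : ℕ → ℝ → ℝ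
  | 0 => fun _ => 1
  | k + 1 => fun x => ∫ y in α..x, m y * sf m α k y

/-- Coefficients of the flat family. -/
noncomputable def vv (m : ℝ → ℝ) (α β : ℝ) (k : ℕ) (x : ℝ) : ℝ :=
  ∑ j ∈ Finset.range (k + 1),
    (cf m α (k - j + 1) β * sf m α j x - sf m α (k - j) β * cf m α (j + 1) x)

/-- Derivatives of the `vv`. -/
noncomputable def vd (m : ℝ → ℝ) (α β : ℝ) (k : ℕ) (x : ℝ) : ℝ :=
  ∑ j ∈ Finset.range (k + 1),
    (cf m α (k - j + 1) β * sd m α j x - sf m α (k - j) β * cd m α (j + 1) x)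

/-- Coefficients of the control. -/
noncomputable def kq (m : ℝ → ℝ) (α β : ℝ) (k : ℕ) : ℝ := sf m α k β

noncomputable def Cz (m : ℝ → ℝ) (α z x : ℝ) : ℝ := ∑' k : ℕ, cf m α k x * z ^ k
noncomputable def Cdz (m : ℝ → ℝ) (α z x : ℝ) : ℝ := ∑' k : ℕ, cd m α k x * z ^ k
noncomputable def Sz (m : ℝ → ℝ) (α z x : ℝ) : ℝ := ∑' k : ℕ, sf m α k x * z ^ k
noncomputable def Sdz (m : ℝ → ℝ) (α z x : ℝ) : ℝ := ∑' k : ℕ, sd m α k x * z ^ k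
noncomputable def Vz (m : ℝ → ℝ) (α β z x : ℝ) : ℝ := ∑' k : ℕ, vv m α β k x * z ^ k
noncomputable def Vdz (m : ℝ → ℝ) (α β z x : ℝ) : ℝ := ∑' k : ℕ, vd m α β k x * z ^ k

/-! ### Flat families and their series -/

/-- Families for which the series below solve `m V_t = V_xx + m q`, `V = 0` at `α` and `β`. -/
structure Fam (m : ℝ → ℝ) (x₀ x₁ α β : ℝ) (v w : ℕ → ℝ → ℝ) (κ : ℕ → ℝ) (D K : ℝ) : Prop where
  hD : 0 ≤ D
  hK : 0 < K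
  dv : ∀ k, ∀ x ∈ Ioo x₀ x₁, HasDerivAt (v k) (w k x) x
  dw0 : ∀ x ∈ Ioo x₀ x₁, HasDerivAt (w 0) (m x * (0 - κ 0)) x
  dw : ∀ k, ∀ x ∈ Ioo x₀ x₁, HasDerivAt (w (k + 1)) (m x * (v k x - κ (k + 1))) x
  va : ∀ k, v k α = 0
  vb : ∀ k, v k β = 0
  bv : ∀ k, ∀ x ∈ Ioo x₀ x₁, |v k x| ≤ D * K ^ k / ((2 * k).factorial : ℝ)
  bw : ∀ k, ∀ x ∈ Ioo x₀ x₁, |w k x| ≤ D * K ^ k / ((2 * k).factorial : ℝ)
  bk : ∀ k, |κ k| ≤ D * K ^ k / ((2 * k).factorial : ℝ)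

noncomputable def SV (v : ℕ → ℝ → ℝ) (Z : ℕ → ℝ → ℝ) (t x : ℝ) : ℝ := ∑' k : ℕ, Z k t * v k x
noncomputable def SQ (κ : ℕ → ℝ) (Z : ℕ → ℝ → ℝ) (t : ℝ) : ℝ := ∑' k : ℕ, Z k t * κ k

/-- Free jets. -/
noncomputable def fj {ι : Type} (l g : ι → ℝ) (n : ℕ) (t : ℝ) : ℝ :=
  ∑' i, g i * (-l i) ^ n * Real.exp (-(l i * t))

/-! ### Spectral data -/

/-- The Green function of `-y''` on `[α, β]` with Dirichlet conditions. -/
noncomputable def Gr (α β x y : ℝ) : ℝ := (min x y - α) * (β - max x y) / (β - α)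

/-- The functions `e i * Vz m α β (-l i)` are an orthonormal basis of eigenfunctions. -/
structure Spec (m : ℝ → ℝ) (α β : ℝ) {ι : Type} (l e : ι → ℝ) (A : ℝ) : Prop where
  hA : 0 ≤ A
  lpos : ∀ i, 0 < l i
  lsum : Summable fun i => ((l i)⁻¹) ^ 2
  ebd : ∀ i, |e i| ≤ A * (1 + l i) ^ 2
  fbd : ∀ i, ∀ x ∈ Icc α β, |e i * Vz m α β (-l i) x| ≤ A * (1 + l i) ^ 2
  dbd : ∀ i, ∀ x ∈ Icc α β, |e i * Vdz m α β (-l i) x| ≤ A * (1 + l i) ^ 2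
  norm : ∀ i, ∫ x in Icc α β, m x * (e i * Vz m α β (-l i) x) ^ 2 = 1
  orth : ∀ i j, i ≠ j →
    ∫ x in Icc α β, m x * ((e i * Vz m α β (-l i) x) * (e j * Vz m α β (-l j) x)) = 0
  dnorm : ∀ i, ∫ x in Icc α β, (e i * Vdz m α β (-l i) x) ^ 2 = l i
  dorth : ∀ i j, i ≠ j →
    ∫ x in Icc α β, (e i * Vdz m α β (-l i) x) * (e j * Vdz m α β (-l j) x) = 0
  pars : ∀ f : ℝ → ℝ, MemLp f 2 (volume.restrict (Icc α β)) →
    HasSum (fun i => (∫ x in Icc α β, m x * (f x * (e i * Vz m α β (-l i) x))) ^ 2)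
      (∫ x in Icc α β, m x * f x ^ 2)

/-- The Fourier coefficients of `f`. -/
noncomputable def co (m : ℝ → ℝ) (α β : ℝ) {ι : Type} (l e : ι → ℝ) (f : ℝ → ℝ) (i : ι) : ℝ :=
  ∫ x in Icc α β, m x * (f x * (e i * Vz m α β (-l i) x))

/-- The free flow with the initial profile `f`, and its derivative in `x`. -/
noncomputable def VF (m : ℝ → ℝ) (α β : ℝ) {ι : Type} (l e : ι → ℝ) (f : ℝ → ℝ) (t x : ℝ) : ℝ :=
  ∑' i, co m α β l e f i * Real.exp (-(l i * t)) * (e i * Vz m α β (-l i) x)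

noncomputable def WF (m : ℝ → ℝ) (α β : ℝ) {ι : Type} (l e : ι → ℝ) (f : ℝ → ℝ) (t x : ℝ) : ℝ :=
  ∑' i, co m α β l e f i * Real.exp (-(l i * t)) * (e i * Vdz m α β (-l i) x)

/-! ### Controlled scalar flows -/

/-- A controlled scalar flow `V` with its derivatives: `m V_t = V_xx + m q`. -/
structure Flow (m : ℝ → ℝ) (x₀ x₁ α β T : ℝ) (f : ℝ → ℝ) (V Vt W : ℝ → ℝ → ℝ) (q : ℝ → ℝ) :
    Prop where
  smooth : ContDiffOn ℝ ∞ (fun z : ℝ × ℝ => V z.1 z.2) (Ioi 0 ×ˢ Ioo x₀ x₁)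
  qsmooth : ContDiffOn ℝ ∞ q (Ioi 0)
  wcont : ContinuousOn (fun z : ℝ × ℝ => W z.1 z.2) (Ioi 0 ×ˢ Ioo x₀ x₁)
  dt : ∀ t x, 0 < t → x ∈ Ioo x₀ x₁ → HasDerivAt (fun s => V s x) (Vt t x) t
  dx : ∀ t x, 0 < t → x ∈ Ioo x₀ x₁ → HasDerivAt (fun y => V t y) (W t x) x
  dxx : ∀ t x, 0 < t → x ∈ Ioo x₀ x₁ → HasDerivAt (fun y => W t y) (m x * (Vt t x - q t)) x
  wall : ∀ t, 0 < t → V t α = 0 ∧ V t β = 0
  zero : ∀ t, T ≤ t → q t = 0 ∧ ∀ x, V t x = 0 ∧ W t x = 0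
  lim : Tendsto (fun t : ℝ => ∫⁻ x in Icc α β, ‖V t x - f x‖ₑ ^ 2) (𝓝[>] 0) (𝓝 0)
  en : ∫⁻ t in Ioi (0 : ℝ), ∫⁻ x in Icc α β, (‖V t x‖ₑ ^ 2 + ‖W t x‖ₑ ^ 2) < ⊤

/-! ### The flows in space -/

/-- The square of the distance from the axis. -/
noncomputable def N2 {d : ℕ} (j k : Fin d) (x : Sp d) : ℝ := x j ^ 2 + x k ^ 2

/-- The closed region between the two cylinders. -/
def shell {d : ℕ} (j k : Fin d) (a b : ℝ) : Set (Sp d) := {x | a ^ 2 ≤ N2 j k x ∧ N2 j k x ≤ b ^ 2}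

/-- The two cylinders. -/
def cylinders {d : ℕ} (j k : Fin d) (a b : ℝ) : Set (Sp d) :=
  {x | N2 j k x = a ^ 2 ∨ N2 j k x = b ^ 2}

/-- The space cut along the half-plane where the angle would jump. -/
def cut {d : ℕ} (j k : Fin d) : Set (Sp d) := {x | 0 < x j ∨ x k ≠ 0}

/-- The velocity with the angular velocity `Ω` and the axial components `A i`. -/
noncomputable def vel {d : ℕ} (j k : Fin d) (Ω : ℝ → ℝ → ℝ) (A : Fin d → ℝ → ℝ → ℝ) (t : ℝ)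
    (x : Sp d) : Sp d :=
  WithLp.toLp 2 fun i => if i = j then -(x k * Ω t (N2 j k x)) else
    if i = k then x j * Ω t (N2 j k x) else A i t (N2 j k x)

/-- The pressure. -/
noncomputable def pre {d : ℕ} (j k : Fin d) (s₀ : ℝ) (Ω : ℝ → ℝ → ℝ) (q : ℝ → ℝ)
    (Q : Fin d → ℝ → ℝ) (t : ℝ) (x : Sp d) : ℝ :=
  (∫ s in s₀..N2 j k x, Ω t s ^ 2) / 2 - q t * Complex.arg ⟨x j, x k⟩
    - ∑ i, if i = j ∨ i = k then 0 else Q i t * x i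

/-- The datum: circular velocity `f` and axial velocities `h i`, functions of the distance from the
axis. -/
noncomputable def dat {d : ℕ} (j k : Fin d) (f : ℝ → ℝ) (h : Fin d → ℝ → ℝ) (x : Sp d) : Sp d :=
  WithLp.toLp 2 fun i => if i = j then -(x k / √(N2 j k x) * f (√(N2 j k x))) else
    if i = k then x j / √(N2 j k x) * f (√(N2 j k x)) else h i (√(N2 j k x))

/-- The angular velocity: `m = 1 / (2 s)`, `s = r² / 2`. -/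
structure Rot (N₀ N₁ : ℝ) (Ω Ωt Ω1 Ω2 : ℝ → ℝ → ℝ) (q : ℝ → ℝ) : Prop where
  smooth : ContDiffOn ℝ ∞ (fun z : ℝ × ℝ => Ω z.1 z.2) (Ioi 0 ×ˢ Ioo N₀ N₁)
  qsmooth : ContDiffOn ℝ ∞ q (Ioi 0)
  dt : ∀ t s, 0 < t → s ∈ Ioo N₀ N₁ → HasDerivAt (fun r => Ω r s) (Ωt t s) t
  dx : ∀ t s, 0 < t → s ∈ Ioo N₀ N₁ → HasDerivAt (fun y => Ω t y) (Ω1 t s) s
  dxx : ∀ t s, 0 < t → s ∈ Ioo N₀ N₁ → HasDerivAt (fun y => Ω1 t y) (Ω2 t s) s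
  heat : ∀ t s, 0 < t → s ∈ Ioo N₀ N₁ → Ωt t s = 4 * s * Ω2 t s + 8 * Ω1 t s + q t / s

/-- An axial component. -/
structure Axi (N₀ N₁ : ℝ) (A At A1 A2 : ℝ → ℝ → ℝ) (Q : ℝ → ℝ) : Prop where
  smooth : ContDiffOn ℝ ∞ (fun z : ℝ × ℝ => A z.1 z.2) (Ioi 0 ×ˢ Ioo N₀ N₁)
  qsmooth : ContDiffOn ℝ ∞ Q (Ioi 0)
  dt : ∀ t s, 0 < t → s ∈ Ioo N₀ N₁ → HasDerivAt (fun r => A r s) (At t s) t
  dx : ∀ t s, 0 < t → s ∈ Ioo N₀ N₁ → HasDerivAt (fun y => A t y) (A1 t s) s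
  dxx : ∀ t s, 0 < t → s ∈ Ioo N₀ N₁ → HasDerivAt (fun y => A1 t y) (A2 t s) s
  heat : ∀ t s, 0 < t → s ∈ Ioo N₀ N₁ → At t s = 4 * s * A2 t s + 4 * A1 t s + Q t

end Pool.Agent.Q62.CC
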