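import Pool.Agent.Q62.CC.Stm

/-!
# Project CC, second part: in the whole shell circular flows are not stopped by circular flows
-/

set_option autoImplicit false

open Set Filter Topology MeasureTheory
open scoped ENNReal ContDiff

namespace Pool.Agent.Q62.CC

open Pool.Agent.Q61.NC (IsJet Bd mulJ Good sh Sp pd StopsIn)

/-- S_GRR. By S_GRD with `h = F2` the function `G x = ∫ Gr x y * F2 y dy` has `G'' = -F2` within
`[α, β]` and vanishes at the ends. So `F + G` has second derivative zero within `[α, β]` and vanishes at the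
ends: its derivative is constant (mean value theorem), so it is affine and zero. -/
def S_GRR : Prop := ∀ (α β : ℝ) (F F1 F2 : ℝ → ℝ), α < β →
  (∀ x ∈ Icc α β, HasDerivWithinAt F (F1 x) (Icc α β) x) →
  (∀ x ∈ Icc α β, HasDerivWithinAt F1 (F2 x) (Icc α β) x) →
  ContinuousOn F2 (Icc α β) → F α = 0 → F β = 0 →
  ∀ x ∈ Icc α β, F x = -∫ y in Icc α β, Gr α β x y * F2 y

/-- S_NEV. Take `φ i`, `μ i ≠ 0` from S_EIG and `c t = ∫ m (V t) (φ i)` over `[α, β]`. Differentiation under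
the integral (`hasDerivAt_integral_of_dominated_loc_of_deriv_le`; `m`, `φ i` are continuous on `[α, β]`,
`Vt` is continuous on `(0, ∞) × [α, β]`): `c' t = ∫ m (Vt t) (φ i)`. By S_GRR with `F2 = m * Vt t`:
`V t x = -∫ Gr x y (m y * Vt t y) dy`, so (Fubini, `Gr α β x y = Gr α β y x`, eigenvalue equation)
`c t = -∫ m y Vt t y (∫ Gr y x (m x * φ i x) dx) dy = -(μ i) * c' t`. So `c t * exp (t / μ i)` has the derivative
zero on `(0, ∞)` and vanishes at `T`: `c = 0`. Parseval of S_EIG for `f = V t`: `∫ m (V t)^2 = 0`, so `V t = 0`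
almost everywhere on `[α, β]`, and everywhere by continuity (`m > 0`). -/
def S_NEV : Prop := ∀ (m : ℝ → ℝ) (x₀ x₁ α β M c : ℝ), Wt m x₀ x₁ α β M c →
  ∀ (T : ℝ) (V Vt W : ℝ → ℝ → ℝ), 0 < T →
  (∀ t, 0 < t → ∀ x ∈ Icc α β, HasDerivAt (fun s => V s x) (Vt t x) t) →
  ContinuousOn (fun z : ℝ × ℝ => Vt z.1 z.2) (Ioi 0 ×ˢ Icc α β) →
  ContinuousOn (fun z : ℝ × ℝ => V z.1 z.2) (Ioi 0 ×ˢ Icc α β) →
  (∀ t, 0 < t → ∀ x ∈ Icc α β, HasDerivWithinAt (V t) (W t x) (Icc α β) x) →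
  (∀ t, 0 < t → ∀ x ∈ Icc α β, HasDerivWithinAt (W t) (m x * Vt t x) (Icc α β) x) →
  (∀ t, 0 < t → V t α = 0 ∧ V t β = 0) →
  (∀ t, T ≤ t → ∀ x ∈ Icc α β, V t x = 0) →
  ∀ t, 0 < t → ∀ x ∈ Icc α β, V t x = 0

/-- S_REG. For `s > 0` the component `k` of `vel` at the point `√s e_j` is `√s * Ω t s` (`N2 = s`), so
`Ω t s = vel t (√s e_j) k / √s` is smooth on `Ioi 0 ×ˢ S`, `S = {s > 0 | √s e_j ∈ N}` open and containing
`[a², b²]`; a compact interval in an open set: there are `N₀ < a²`, `b² < N₁`, `0 < N₀` with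
`(N₀, N₁) ⊂ S`. `Ωt`, `Ω1`, `Ω2` are the partial derivatives (`fderiv` applied to `(1, 0)`, `(0, 1)`). -/
def S_REG : Prop := ∀ (d : ℕ) (j k : Fin d) (a b : ℝ), j ≠ k → 0 < a → a < b →
  ∀ (N : Set (Sp d)) (Ω : ℝ → ℝ → ℝ) (A : Fin d → ℝ → ℝ → ℝ), IsOpen N → shell j k a b ⊆ N →
  ContDiffOn ℝ ∞ (fun z : ℝ × Sp d => vel j k Ω A z.1 z.2) (Ioi 0 ×ˢ N) →
  ∃ (N₀ N₁ : ℝ) (Ωt Ω1 Ω2 : ℝ → ℝ → ℝ), 0 < N₀ ∧ N₀ < a ^ 2 ∧ b ^ 2 < N₁ ∧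
    ContDiffOn ℝ ∞ (fun z : ℝ × ℝ => Ω z.1 z.2) (Ioi 0 ×ˢ Ioo N₀ N₁) ∧
    (∀ t s, 0 < t → s ∈ Ioo N₀ N₁ → HasDerivAt (fun r => Ω r s) (Ωt t s) t) ∧
    (∀ t s, 0 < t → s ∈ Ioo N₀ N₁ → HasDerivAt (fun y => Ω t y) (Ω1 t s) s) ∧
    (∀ t s, 0 < t → s ∈ Ioo N₀ N₁ → HasDerivAt (fun y => Ω1 t y) (Ω2 t s) s)

/-- S_CIR. Fix `t > 0`, `s = r² ∈ [a², b²]` and let `x(φ) = r cos φ e_j + r sin φ e_k` (in the shell, `N2 = s`).
By S_LAP the components `j`, `k` of the momentum equation at `x = x(φ)` are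
`∂_j p = x_k Ωt + x_j Ω² - x_k (4 s Ω2 + 8 Ω1)` and `∂_k p = -x_j Ωt + x_k Ω² + x_j (4 s Ω2 + 8 Ω1)` (the
transport term `∑ u_i ∂_i` acts on `x_k Ω(N2)` as in S_MOM: `-x_j Ω²` and `-x_k Ω²`). So `P φ = p t (x φ)`
(`p t` is differentiable near the shell) has the derivative
`-x_k ∂_j p + x_j ∂_k p = -s (Ωt - 4 s Ω2 - 8 Ω1)`, which does not depend on `φ`; as `P (2π) = P 0` and
`s > 0`, it is zero. -/
def S_CIR : Prop := ∀ (d : ℕ) (j k : Fin d) (a b T : ℝ), j ≠ k → 0 < a → a < b →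
  ∀ (U₀ : Sp d → Sp d) (Ω : ℝ → ℝ → ℝ) (A : Fin d → ℝ → ℝ → ℝ) (p : ℝ → Sp d → ℝ),
  StopsIn (shell j k a b) (cylinders j k a b) T U₀ (vel j k Ω A) p →
  ∀ (N₀ N₁ : ℝ) (Ωt Ω1 Ω2 : ℝ → ℝ → ℝ), 0 < N₀ → N₀ < a ^ 2 → b ^ 2 < N₁ →
    (∀ t s, 0 < t → s ∈ Ioo N₀ N₁ → HasDerivAt (fun r => Ω r s) (Ωt t s) t) →
    (∀ t s, 0 < t → s ∈ Ioo N₀ N₁ → HasDerivAt (fun y => Ω t y) (Ω1 t s) s) →
    (∀ t s, 0 < t → s ∈ Ioo N₀ N₁ → HasDerivAt (fun y => Ω1 t y) (Ω2 t s) s) →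
    ∀ t, 0 < t → ∀ s ∈ Icc (a ^ 2) (b ^ 2), Ωt t s = 4 * s * Ω2 t s + 8 * Ω1 t s

/-- S_SHR. The integral over the part `E = {x_j > 0, 0 ≤ x_k ≤ a/2, N2 ∈ [a², b²], |x_i| ≤ b}` of the set is
zero. Fubini (model: `piece` in `Pool/Agent/Q65/CC/Shl.lean`) and, for fixed `x_k ∈ [0, a/2]`, the
substitution `s = x_j² + x_k²` (`s` runs over `[a², b²]`, `ds = 2 x_j dx_j ≤ 2 b dx_j`): the integral over `E` is
at least `(a/2) (2b)^(d-2) (1/(2b)) ∫ G` (for `d = 2` no other coordinates), so `∫ G = 0`. One may also argue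
with measures of sets only: it suffices that `{G ≠ 0} ∩ [a², b²]` is a null set. -/
def S_SHR : Prop := ∀ (d : ℕ) (j k : Fin d) (a b : ℝ), j ≠ k → 0 < a → a < b →
  ∀ G : ℝ → ℝ≥0∞, Measurable G →
    ∫⁻ x in {x : Sp d | x ∈ shell j k a b ∧ ∀ i, |x i| ≤ b}, G (N2 j k x) = 0 →
    ∫⁻ s in Icc (a ^ 2) (b ^ 2), G s = 0

/-- S_NUL. The map `r ↦ r²` is `C¹` and its inverse `s ↦ √s` is `C¹` on `[a², b²]`: both map null sets to null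
sets (`MeasureTheory.addHaar_image_eq_zero_of_differentiableOn_of_addHaar_eq_zero`, or the change of
variables formula `lintegral_image_eq_lintegral_abs_deriv_mul`). -/
def S_NUL : Prop := ∀ a b : ℝ, 0 < a → a < b → ∀ f : ℝ → ℝ,
  (f =ᵐ[volume.restrict (Icc a b)] 0 ↔
    (fun s => f (√s)) =ᵐ[volume.restrict (Icc (a ^ 2) (b ^ 2))] 0)

/-- S_ZER. Let `E = {x ∈ shell | ∀ i, |x i| ≤ b}` (bounded, measurable). For `t > 0` and `x ∈ E` the components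
`j`, `k` of `vel t x` are zero, so `‖f (√(N2 x))‖ₑ ^ 2 ≤ ‖vel t x - dat x‖ₑ ^ 2` (the squares of the
components `j`, `k` of `dat` add up to `f(√N2)²`; `Pool.Agent.Q61.NC.enorm_sq_eq` in `Pos.lean`). By the
initial condition `∫⁻ x in E, ‖f (√(N2 x))‖ₑ ^ 2 = 0`. By S_SQM the function `s ↦ f (√s)` is equal to a
measurable function `g` almost everywhere on `[a², b²]`; by S_SHL (applied to `‖f (√s) - g s‖ₑ ^ 2`)
`f (√(N2 x)) = g (N2 x)` for almost all `x ∈ E`, so `∫⁻ x in E, ‖g (N2 x)‖ₑ ^ 2 = 0`, and S_SHR gives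
`g = 0` almost everywhere on `[a², b²]`. Conclude with S_NUL. -/
def S_ZER : Prop := ∀ (d : ℕ) (j k : Fin d) (a b T : ℝ), j ≠ k → 0 < a → a < b →
  ∀ (f : ℝ → ℝ) (h : Fin d → ℝ → ℝ) (Ω : ℝ → ℝ → ℝ) (A : Fin d → ℝ → ℝ → ℝ) (p : ℝ → Sp d → ℝ),
  AEStronglyMeasurable f (volume.restrict (Icc a b)) →
  StopsIn (shell j k a b) (cylinders j k a b) T (dat j k f h) (vel j k Ω A) p →
  (∀ t, 0 < t → ∀ s ∈ Icc (a ^ 2) (b ^ 2), Ω t s = 0) →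
  f =ᵐ[volume.restrict (Icc a b)] 0

/-- S_NEG. S_REG (with the `N` of `StopsIn.smooth`), then S_CIR: the heat equation for `Ω` on
`[a², b²]`. Put `V t σ = 2σ Ω t (2σ)`, `Vt t σ = 2σ Ωt t (2σ)`, `W t σ = 2 Ω t (2σ) + 4σ Ω1 t (2σ)` on
`[a²/2, b²/2]`, `m σ = 1/(2σ)` (as in `Pool/Agent/Q176/CC/Rtf.lean`, where `Wt` is proved): the derivative
of `W` is `8 Ω1 + 8σ Ω2 = Ωt = m Vt` at `2σ`. `V = 0` at the ends (wall: the component `k` of `vel` at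
`√s e_j`, `s = a², b²`) and for `t ≥ max T 1` (rest). S_NEV: `V = 0`, so `Ω t s = 0` for `t > 0`,
`s ∈ [a², b²]`. S_ZER. -/
def S_NEG : Prop := ∀ (d : ℕ) (j k : Fin d) (a b T : ℝ), j ≠ k → 0 < a → a < b →
  ∀ (f : ℝ → ℝ) (h : Fin d → ℝ → ℝ) (Ω : ℝ → ℝ → ℝ) (A : Fin d → ℝ → ℝ → ℝ) (p : ℝ → Sp d → ℝ),
  AEStronglyMeasurable f (volume.restrict (Icc a b)) →
  StopsIn (shell j k a b) (cylinders j k a b) T (dat j k f h) (vel j k Ω A) p →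
  f =ᵐ[volume.restrict (Icc a b)] 0

end Pool.Agent.Q62.CC
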