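import Pool.Agent.Q62.CC.Reg
import Pool.Agent.Q62.CC.Stn
import Pool.Agent.Q68.CC.Hsa
import Pool.Agent.Q181.CC.Hsb
import Pool.Agent.Q65.CC.Shl
import Pool.Agent.Q65.CC.Sca
import Pool.Agent.Q149.CC.Cvg
import Pool.Agent.Q224.CC.Eng
import Pool.Agent.Q224.CC.Bds
import Pool.Agent.Q162.CC.Fam
import Pool.Agent.Q162.CC.Sra
import Pool.Agent.Q176.CC.Rtf
import Pool.Agent.Q176.CC.Axf
import Pool.Agent.Q129.CC.Lap
import Pool.Agent.Q129.CC.Reg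
import Pool.Agent.Q192.CC.Ode
import Pool.Agent.Q150.CC.Efn
import Pool.Agent.Q150.CC.Zer
import Pool.Agent.Q130.CC.Spc
import Pool.Agent.Q130.CC.Nev
import Pool.Agent.Q198.CC.Eig
import Pool.Agent.Q187.CC.Frj
import Pool.Agent.Q238.CC.Pri
import Pool.Agent.Q208.CC.Vvs
import Pool.Agent.Q13.CC.Lim
import Pool.Agent.Q299.CC.Srb
import Pool.Agent.Q299.CC.Swp
import Pool.Agent.Q299.CC.Inj
import Pool.Agent.Q210.CC62.Grd
import Pool.Agent.Q210.CC62.Trc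
import Pool.Agent.Q210.CC62.Cir
import Pool.Agent.Q210.CC62.Shr
import Pool.Agent.Q247.CC.Chr
import Pool.Agent.Q190.CC.Cha
import Pool.Agent.Q94.CC.Sqm
import Pool.Agent.Q259.CC.Arg
import Pool.Agent.Q252.CC.Grb
import Pool.Agent.Q31.CC.Cvl
import Pool.Agent.Q252.CC.Dor
import Pool.Agent.Q252.CC.Bnd
import Pool.Agent.Q252.CC.Der
import Pool.Agent.Q186.CC.Neg
import Pool.Agent.Q186.CC.NulSets
import Pool.Agent.Q121.CC.Grr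
import Pool.Agent.Q121.CC.Cua
import Pool.Agent.Q62.CC.Ang

/-!
# Project CC: the results
-/

set_option autoImplicit false

open Set Filter Topology MeasureTheory
open scoped ENNReal ContDiff

namespace Pool.Agent.Q62.CC

open Pool.Agent.Q61.NC (Sp pd StopsIn)

theorem v_DER : S_DER := Pool.Agent.Q252.CC.t_DER
theorem v_BND : S_BND := Pool.Agent.Q252.CC.t_BND v_DER
theorem v_FAM : S_FAM := Pool.Agent.Q162.CC.Fam.t_FAM v_DER v_BND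
theorem v_ODE : S_ODE := Pool.Agent.Q192.CC.t_ODE v_DER v_BND v_FAM
theorem v_VVS : S_VVS := Pool.Agent.Q208.CC.t_VVS v_BND
theorem v_SRA : S_SRA := Pool.Agent.Q162.CC.Sra.t_SRA
theorem v_SRB : S_SRB := Pool.Agent.Q299.CC.t_SRB v_SRA
theorem v_FRJ : S_FRJ := t_FRJ
theorem v_SWP : S_SWP := Pool.Agent.Q299.CC.t_SWP v_FRJ
theorem v_HSA : S_HSA := Pool.Agent.Q68.CC.t_HSA
theorem v_HSB : S_HSB := Pool.Agent.Q181.CC.t_HSB v_HSA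
theorem v_INJ : S_INJ := Pool.Agent.Q299.CC.t_INJ
theorem v_EIG : S_EIG := Pool.Agent.Q198.CC.t_EIG v_HSB v_INJ
theorem v_GRD : S_GRD := Pool.Agent.Q210.CC62.Grd.t_GRD
theorem v_EFN : S_EFN := Pool.Agent.Q150.CC.t_EFN v_ODE v_GRD
theorem v_BDS : S_BDS := Pool.Agent.Q224.CC.t_BDS v_ODE
theorem v_DOR : S_DOR := Pool.Agent.Q252.CC.t_DOR v_ODE
theorem v_TRC : S_TRC := Pool.Agent.Q210.CC62.Trc.t_TRC
theorem v_SPC : S_SPC := Pool.Agent.Q130.CC.t_SPC v_EIG v_EFN v_BDS v_TRC v_DOR v_VVS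
theorem v_CVG : S_CVG := Pool.Agent.Q149.CC.Cvg.t_CVG v_ODE v_FRJ v_FAM
theorem v_LIM : S_LIM := Pool.Agent.Q13.CC.t_LIM v_CVG v_ODE
theorem v_ENG : S_ENG := Pool.Agent.Q224.CC.t_ENG v_ODE v_CVG
theorem v_SCA : S_SCA :=
  Pool.Agent.Q65.CC.t_SCA v_FAM v_SRA v_SRB v_FRJ v_SWP v_SPC v_LIM v_ENG
theorem v_CHR : S_CHR := Pool.Agent.Q247.CC.t_CHR
theorem v_CHA : S_CHA := Pool.Agent.Q190.CC.t_CHA
theorem v_SQM : S_SQM := Pool.Agent.Q94.CC.t_SQM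
theorem v_RTF : S_RTF := Pool.Agent.Q176.CC.t_RTF v_SCA v_CHR
theorem v_AXF : S_AXF := Pool.Agent.Q176.CC.t_AXF v_SCA v_CHA
theorem v_LAP : S_LAP := Pool.Agent.Q129.CC.t_LAP
theorem v_ARG : S_ARG := Pool.Agent.Q259.CC.t_ARG
theorem v_PRI : S_PRI := Pool.Agent.Q238.CC.t_PRI
theorem v_MOM : S_MOM := Pool.Agent.Q65.CC.t_MOM v_LAP v_ARG v_PRI
theorem v_SMO : S_SMO := Pool.Agent.Q238.CC.t_SMO v_ARG v_PRI
theorem v_GRB : S_GRB := Pool.Agent.Q252.CC.t_GRB v_LAP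
theorem v_CVL : S_CVL := Pool.Agent.Q31.CCf.t_CVL
theorem v_SHL : S_SHL := Pool.Agent.Q65.CC.t_SHL
theorem v_GRR : S_GRR := Pool.Agent.Q121.CC.t_GRR v_GRD
theorem v_NEV : S_NEV := Pool.Agent.Q130.CC.t_NEV v_EIG v_GRR
theorem v_REG : S_REG := Pool.Agent.Q129.CC.t_REG
theorem v_CIR : S_CIR := Pool.Agent.Q210.CC62.Cir.t_CIR v_LAP
theorem v_SHR : S_SHR := Pool.Agent.Q210.CC62.Shr.t_SHR
theorem v_NUL : S_NUL := Pool.Agent.Q186.CC.t_NUL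
theorem v_ZER : S_ZER := Pool.Agent.Q150.CC.t_ZER v_SHR v_SHL v_SQM v_NUL
theorem v_NEG : S_NEG := Pool.Agent.Q186.CC.t_NEG v_REG v_CIR v_NEV v_ZER
theorem v_ANG : S_ANG := Pool.Agent.Q62.CC.Ang.t_ANG
theorem v_CUA : S_CUA := Pool.Agent.Q121.CC.t_CUA v_ARG

variable {d : ℕ} {j k : Fin d} {a b T : ℝ}

theorem cut_angle (hjk : j ≠ k) :
    IsOpen (cut j k) ∧ IsAngle j k (cut j k) fun x : Sp d => Complex.arg ⟨x j, x k⟩ :=
  v_CUA d j k hjk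

theorem channel (hjk : j ≠ k) (ha : 0 < a) (hab : a < b) (hT : 0 < T)
    {h : Fin d → ℝ → ℝ} (hh : ∀ i, MemLp (h i) 2 (volume.restrict (Icc a b)))
    {f : ℝ → ℝ} (hf : MemLp f 2 (volume.restrict (Icc a b))) {N : Set (Sp d)} {θ : Sp d → ℝ}
    (hN : IsOpen N) (hθ : IsAngle j k N θ) :
    ∃ (Ω : ℝ → ℝ → ℝ) (A : Fin d → ℝ → ℝ → ℝ) (p : ℝ → Sp d → ℝ),
      StopsIn (shell j k a b ∩ N) (cylinders j k a b) T (dat j k f h) (vel j k Ω A) p :=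
  posA v_RTF v_AXF v_LAP v_PRI v_SMO v_GRB v_CVL v_SHL v_SQM v_ANG hjk ha hab hT hh hf hN hθ

theorem whole (hjk : j ≠ k) (ha : 0 < a) (hab : a < b) (hT : 0 < T)
    {h : Fin d → ℝ → ℝ} (hh : ∀ i, MemLp (h i) 2 (volume.restrict (Icc a b)))
    {f : ℝ → ℝ} (hf : MemLp f 2 (volume.restrict (Icc a b))) :
    (∃ (Ω : ℝ → ℝ → ℝ) (A : Fin d → ℝ → ℝ → ℝ) (p : ℝ → Sp d → ℝ),
      StopsIn (shell j k a b) (cylinders j k a b) T (dat j k f h) (vel j k Ω A) p) ↔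
      f =ᵐ[volume.restrict (Icc a b)] 0 := by
  constructor
  · rintro ⟨Ω, A, p, hs⟩
    exact v_NEG d j k a b T hjk ha hab f h Ω A p hf.1 hs
  · intro h0
    exact posB v_AXF v_LAP v_PRI v_SMO v_GRB v_CVL v_SHL v_SQM v_MOM hjk ha hab hT hh hf
      ((v_NUL a b ha hab f).1 h0)

end Pool.Agent.Q62.CC
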