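import Pool.Agent.Q62.CC.Sto
import Pool.Agent.Q65.CC.Mom
import Pool.Agent.Q238.CC.Smo
import Pool.Agent.Q149.CC.Stp

/-!
# Project CC: flows in regions with an angle function
-/

set_option autoImplicit false
set_option linter.all false

open Set Filter Topology MeasureTheory
open scoped ENNReal ContDiff

namespace Pool.Agent.Q62.CC

open Pool.Agent.Q61.NC (Sp pd StopsIn)
open Pool.Agent.Q65.CC (sum2 pd_neg diff_coord pd_coord diff_N2 vel_j vel_k vel_o)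
open Pool.Agent.Q238.CC (comp_smooth fst_smooth snd_coord N2_smooth)
open Pool.Agent.Q149.CC.Stp (dcont slice emeas)

/-- The pressure with the angle `θ`. -/
noncomputable def preA {d : ℕ} (j k : Fin d) (s₀ : ℝ) (Ω : ℝ → ℝ → ℝ) (q : ℝ → ℝ)
    (Q : Fin d → ℝ → ℝ) (θ : Sp d → ℝ) (t : ℝ) (x : Sp d) : ℝ :=
  (∫ s in s₀..N2 j k x, Ω t s ^ 2) / 2 - q t * θ x
    - ∑ i, if i = j ∨ i = k then 0 else Q i t * x i

/-- A smooth angle function. -/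
def SA {d : ℕ} (j k : Fin d) (N : Set (Sp d)) (θ : Sp d → ℝ) : Prop :=
  ContDiffOn ℝ ∞ θ N ∧ ∀ x ∈ N, ∀ i, pd i θ x =
      if i = j then -(x k) / N2 j k x else if i = k then x j / N2 j k x else 0

/-- the gradient of the pressure -/
theorem pd_preA (hp1 : S_LAP) (hp3 : S_PRI) {d : ℕ} {j k : Fin d} {N₀ N₁ s₀ : ℝ}
    {Ω Ωt Ω1 Ω2 : ℝ → ℝ → ℝ} {q : ℝ → ℝ} (Q : Fin d → ℝ → ℝ) (hjk : j ≠ k)
    (hs₀ : s₀ ∈ Ioo N₀ N₁) (hR : Rot N₀ N₁ Ω Ωt Ω1 Ω2 q) {t : ℝ} {x : Sp d} (ht : 0 < t)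
    (hx : N2 j k x ∈ Ioo N₀ N₁) {N : Set (Sp d)} {θ : Sp d → ℝ} (hN : IsOpen N) (hθ : SA j k N θ)
    (hc : x ∈ N) (n : Fin d) :
    pd n (preA j k s₀ Ω q Q θ t) x =
      (if n = j ∨ n = k then x n * Ω t (N2 j k x) ^ 2 else 0) -
      q t * (if n = j then -(x k) / N2 j k x else if n = k then x j / N2 j k x else 0) -
      (if n = j ∨ n = k then 0 else Q n t) := by
  have hprim := (hp3 N₀ N₁ s₀ (fun t s => Ω t s ^ 2) hs₀ (hR.smooth.pow 2)).2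
  set g : ℝ → ℝ := fun y => ∫ s in s₀..y, Ω t s ^ 2 with hg
  have hg1 : ∀ s ∈ Ioo N₀ N₁, HasDerivAt g (Ω t s ^ 2) s := fun s hs => hprim t s ht hs
  have hg2 : ∀ s ∈ Ioo N₀ N₁, HasDerivAt (fun s => Ω t s ^ 2) (2 * Ω t s * Ω1 t s) s := by
    intro s hs
    have := (hR.dx t s ht hs).pow 2
    refine this.congr_deriv ?_
    simp
  have hL := (hp1 d j k N₀ N₁ g (fun s => Ω t s ^ 2) (fun s => 2 * Ω t s * Ω1 t s) hjk hg1 hg2 x hx).1 n
  have d1 : DifferentiableAt ℝ (fun y : Sp d => g (N2 j k y) / 2) x := by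
    have h1 : DifferentiableAt ℝ g (N2 j k x) := (hg1 _ hx).differentiableAt
    have h2 : DifferentiableAt ℝ (fun y : Sp d => g (N2 j k y)) x := h1.comp x (diff_N2 j k x)
    have e : (fun y : Sp d => g (N2 j k y) / 2) = fun y => (2 : ℝ)⁻¹ * g (N2 j k y) := by
      funext y; ring
    rw [e]
    exact h2.const_mul _
  have p1 : pd n (fun y : Sp d => g (N2 j k y) / 2) x =
      if n = j ∨ n = k then x n * Ω t (N2 j k x) ^ 2 else 0 := by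
    have h2 : DifferentiableAt ℝ (fun y : Sp d => g (N2 j k y)) x := by
      have h1 : DifferentiableAt ℝ g (N2 j k x) := (hg1 _ hx).differentiableAt
      exact h1.comp x (diff_N2 j k x)
    have h3 : fderiv ℝ (fun y : Sp d => g (N2 j k y) / 2) x =
        (2 : ℝ)⁻¹ • fderiv ℝ (fun y : Sp d => g (N2 j k y)) x := by
      have : (fun y : Sp d => g (N2 j k y) / 2) = fun y => (2 : ℝ)⁻¹ * g (N2 j k y) := by
        funext y; ring
      rw [this, fderiv_const_mul h2]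
    have h4 : pd n (fun y : Sp d => g (N2 j k y) / 2) x =
        (2 : ℝ)⁻¹ * pd n (fun y : Sp d => g (N2 j k y)) x := by
      simp only [pd, h3]
      rfl
    rw [h4, hL]
    split_ifs <;> ring
  have d2 : DifferentiableAt ℝ (fun y : Sp d => q t * θ y) x := by
    have := (hθ.1.contDiffAt (hN.mem_nhds hc)).differentiableAt (by simp)
    exact this.const_mul _
  have p2 : pd n (fun y : Sp d => q t * θ y) x =
      q t * (if n = j then -(x k) / N2 j k x else if n = k then x j / N2 j k x else 0) := by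
    have hd := (hθ.1.contDiffAt (hN.mem_nhds hc)).differentiableAt (by simp)
    rw [← hθ.2 x hc n]
    simp only [pd, fderiv_const_mul hd]
    rfl
  have d3 : ∀ i ∈ (Finset.univ : Finset (Fin d)), DifferentiableAt ℝ
      (fun y : Sp d => if i = j ∨ i = k then (0 : ℝ) else Q i t * y i) x := by
    intro i _
    split_ifs
    · exact differentiableAt_const _
    · exact (diff_coord i x).const_mul _
  have p3 : pd n (fun y : Sp d => ∑ i, if i = j ∨ i = k then (0 : ℝ) else Q i t * y i) x =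
      if n = j ∨ n = k then 0 else Q n t := by
    have h1 : pd n (fun y : Sp d => ∑ i, if i = j ∨ i = k then (0 : ℝ) else Q i t * y i) x =
        ∑ i, pd n (fun y : Sp d => if i = j ∨ i = k then (0 : ℝ) else Q i t * y i) x := by
      simp only [pd]
      rw [fderiv_fun_sum d3]
      simp
    rw [h1, Finset.sum_eq_single n]
    · split_ifs with h
      · simp [pd]
      · have : pd n (fun y : Sp d => Q n t * y n) x = Q n t * pd n (fun y : Sp d => y n) x := by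
          simp only [pd, fderiv_const_mul (diff_coord n x)]
          rfl
        rw [this, pd_coord]
        simp
    · intro i _ hi
      split_ifs with h
      · simp [pd]
      · have : pd n (fun y : Sp d => Q i t * y i) x = Q i t * pd n (fun y : Sp d => y i) x := by
          simp only [pd, fderiv_const_mul (diff_coord i x)]
          rfl
        rw [this, pd_coord, if_neg hi.symm, mul_zero]
    · intro h
      exact absurd (Finset.mem_univ _) h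
  have d3' : DifferentiableAt ℝ
      (fun y : Sp d => ∑ i, if i = j ∨ i = k then (0 : ℝ) else Q i t * y i) x :=
    DifferentiableAt.fun_sum d3
  have e : preA j k s₀ Ω q Q θ t = fun y : Sp d => g (N2 j k y) / 2 -
      q t * θ y - ∑ i, (if i = j ∨ i = k then (0 : ℝ) else Q i t * y i) := by
    funext y
    rfl
  rw [e, ← p1, ← p2, ← p3]
  simp only [pd]
  rw [((d1.hasFDerivAt.fun_sub d2.hasFDerivAt).fun_sub d3'.hasFDerivAt).fderiv]
  rfl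

theorem momA (hp1 : S_LAP) (hp3 : S_PRI) {d : ℕ} {j k : Fin d} {N₀ N₁ s₀ : ℝ}
    {Ω Ωt Ω1 Ω2 : ℝ → ℝ → ℝ} {q : ℝ → ℝ} {A At A1 A2 : Fin d → ℝ → ℝ → ℝ} {Q : Fin d → ℝ → ℝ}
    (hjk : j ≠ k) (hN₀ : 0 < N₀) (hs₀ : s₀ ∈ Ioo N₀ N₁) (hR : Rot N₀ N₁ Ω Ωt Ω1 Ω2 q)
    (hA : ∀ i, Axi N₀ N₁ (A i) (At i) (A1 i) (A2 i) (Q i)) {N : Set (Sp d)} {θ : Sp d → ℝ}
    (hNo : IsOpen N) (hθ : SA j k N θ) {t : ℝ} {x : Sp d} (ht : 0 < t) (hx : N2 j k x ∈ Ioo N₀ N₁)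
    (hc : x ∈ N) :
    (∀ n, deriv (fun s => vel j k Ω A s x n) t
      + ∑ i, vel j k Ω A t x i * pd i (fun y => vel j k Ω A t y n) x
      - ∑ i, pd i (pd i fun y => vel j k Ω A t y n) x + pd n (preA j k s₀ Ω q Q θ t) x = 0) ∧
    ∑ i, pd i (fun y => vel j k Ω A t y i) x = 0 := by
  have hN : 0 < N2 j k x := hN₀.trans hx.1
  have hN' : x j ^ 2 + x k ^ 2 = N2 j k x := rfl
  obtain ⟨-, -, hO⟩ := hp1 d j k N₀ N₁ (Ω t) (Ω1 t) (Ω2 t) hjk (fun s hs => hR.dx t s ht hs)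
    (fun s hs => hR.dxx t s ht hs) x hx
  obtain ⟨oj1, oj2⟩ := hO j (Or.inl rfl)
  obtain ⟨ok1, ok2⟩ := hO k (Or.inr rfl)
  have hAx : ∀ n, _ := fun n => hp1 d j k N₀ N₁ (A n t) (A1 n t) (A2 n t) hjk
    (fun s hs => (hA n).dx t s ht hs) (fun s hs => (hA n).dxx t s ht hs) x hx
  have hheat := hR.heat t _ ht hx
  have vj : (fun y : Sp d => vel j k Ω A t y j) = fun y => -(y k * Ω t (N2 j k y)) := by
    funext y; exact vel_j Ω A t y
  have vk : (fun y : Sp d => vel j k Ω A t y k) = fun y => y j * Ω t (N2 j k y) := by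
    funext y; exact vel_k hjk Ω A t y
  have vo : ∀ n, n ≠ j → n ≠ k → (fun y : Sp d => vel j k Ω A t y n) =
      fun y => A n t (N2 j k y) := by
    intro n h1 h2
    funext y; exact vel_o h1 h2 Ω A t y
  have hk' : k ≠ j := hjk.symm
  refine ⟨fun n => ?_, ?_⟩
  · rw [pd_preA hp1 hp3 Q hjk hs₀ hR ht hx hNo hθ hc n]
    by_cases h1 : n = j
    · subst h1
      have hder : deriv (fun s => vel n k Ω A s x n) t = -(x k * Ωt t (N2 n k x)) := by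
        have : (fun s => vel n k Ω A s x n) = fun s => -(x k * Ω s (N2 n k x)) := by
          funext s; exact vel_j Ω A s x
        rw [this]
        exact ((hR.dt t _ ht hx).const_mul (x k)).neg.deriv
      rw [hder, vj]
      simp only [pd_neg]
      rw [sum2 hjk]
      · simp only [ok1, ok2, Finset.sum_neg_distrib, vel_j, vel_k hjk]
        simp only [if_true, if_neg hjk, true_or, or_true, if_true, zero_add]
        rw [hheat]
        field_simp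
        ring
      · intro i hi1 hi2
        simp only [ok1]
        simp [hi1, hi2]
    · by_cases h2 : n = k
      · subst h2
        have hder : deriv (fun s => vel j n Ω A s x n) t = x j * Ωt t (N2 j n x) := by
          have : (fun s => vel j n Ω A s x n) = fun s => x j * Ω s (N2 j n x) := by
            funext s; exact vel_k hjk Ω A s x
          rw [this]
          exact ((hR.dt t _ ht hx).const_mul (x j)).deriv
        rw [hder, vk]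
        rw [sum2 hjk]
        · simp only [oj1, oj2, vel_j, vel_k hjk]
          simp only [if_true, if_neg hk', true_or, or_true, if_true, zero_add]
          rw [hheat]
          field_simp
          ring
        · intro i hi1 hi2
          simp only [oj1]
          simp [hi1, hi2]
      · obtain ⟨a1, a2, -⟩ := hAx n
        have hder : deriv (fun s => vel j k Ω A s x n) t = At n t (N2 j k x) := by
          have : (fun s => vel j k Ω A s x n) = fun s => A n s (N2 j k x) := by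
            funext s; exact vel_o h1 h2 Ω A s x
          rw [this]
          exact ((hA n).dt t _ ht hx).deriv
        rw [hder, vo n h1 h2, a2, sum2 hjk]
        · simp only [a1, vel_j, vel_k hjk]
          simp only [if_true, h1, h2, or_self, if_false, true_or, or_true]
          rw [(hA n).heat t _ ht hx]
          ring
        · intro i hi1 hi2
          simp only [a1]
          simp [hi1, hi2]
  · rw [sum2 hjk]
    · rw [vj, vk, pd_neg]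
      simp only [ok1, oj1]
      simp only [if_neg hjk, if_neg hk', true_or, or_true, if_true, zero_add]
      ring
    · intro i hi1 hi2
      rw [vo i hi1 hi2]
      simp only [(hAx i).1]
      simp [hi1, hi2]

theorem smoA (hp2 : S_PRI) {d : ℕ} {j k : Fin d} {N₀ N₁ s₀ : ℝ}
    {Ω Ωt Ω1 Ω2 : ℝ → ℝ → ℝ} {q : ℝ → ℝ} {A At A1 A2 : Fin d → ℝ → ℝ → ℝ} {Q : Fin d → ℝ → ℝ}
    (hs₀ : s₀ ∈ Ioo N₀ N₁) (hR : Rot N₀ N₁ Ω Ωt Ω1 Ω2 q)
    (hA : ∀ i, Axi N₀ N₁ (A i) (At i) (A1 i) (A2 i) (Q i)) {N : Set (Sp d)} {θ : Sp d → ℝ}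
    (hθ : SA j k N θ) :
    ContDiffOn ℝ ∞ (fun z : ℝ × Sp d => preA j k s₀ Ω q Q θ z.1 z.2)
      (Ioi 0 ×ˢ ({x : Sp d | N2 j k x ∈ Ioo N₀ N₁} ∩ N)) := by
  set U : Set (Sp d) := {x : Sp d | N2 j k x ∈ Ioo N₀ N₁} with hU
  have hsq : ContDiffOn ℝ ∞ (fun z : ℝ × ℝ => Ω z.1 z.2 ^ 2) (Ioi 0 ×ˢ Ioo N₀ N₁) :=
    hR.smooth.pow 2
  have hI : ContDiffOn ℝ ∞ (fun z : ℝ × Sp d => (∫ s in s₀..N2 j k z.2, Ω z.1 s ^ 2) / 2)
      (Ioi 0 ×ˢ U) := by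
    have h1 := (hp2 N₀ N₁ s₀ (fun t s => Ω t s ^ 2) hs₀ hsq).1
    have h2 : ContDiffOn ℝ ∞ (fun z : ℝ × Sp d => ∫ s in s₀..N2 j k z.2, Ω z.1 s ^ 2)
        (Ioi 0 ×ˢ U) := comp_smooth (G := fun t x => ∫ s in s₀..x, Ω t s ^ 2) h1
    exact h2.div_const 2
  have hS : ContDiffOn ℝ ∞ (fun z : ℝ × Sp d => ∑ i, if i = j ∨ i = k then 0 else Q i z.1 * z.2 i)
      (Ioi 0 ×ˢ U) := by
    refine ContDiffOn.sum fun i _ => ?_
    by_cases h : i = j ∨ i = k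
    · simp only [if_pos h]
      exact contDiffOn_const
    · simp only [if_neg h]
      exact (fst_smooth (hA i).qsmooth U).mul (snd_coord i _)
  have harg : ContDiffOn ℝ ∞ (fun z : ℝ × Sp d => θ z.2) (Ioi 0 ×ˢ (U ∩ N)) :=
    hθ.1.comp contDiff_snd.contDiffOn fun _ hz => hz.2.2
  have hsub : (Ioi (0 : ℝ) ×ˢ (U ∩ N) : Set (ℝ × Sp d)) ⊆ Ioi 0 ×ˢ U :=
    prod_mono subset_rfl inter_subset_left
  exact ((hI.mono hsub).sub ((fst_smooth hR.qsmooth _).mul harg)).sub (hS.mono hsub)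

theorem stopsA (hp4 : S_SMO) (hp5 : S_GRB) (hp6 : S_CVL) (hp7 : S_SHL)
    (hp8 : S_SQM) {d : ℕ} {j k : Fin d} {a b T : ℝ} (hjk : j ≠ k) (ha : 0 < a) (hab : a < b)
    {h : Fin d → ℝ → ℝ} (hh : ∀ i, MemLp (h i) 2 (volume.restrict (Icc a b)))
    {f : ℝ → ℝ} (hf : MemLp f 2 (volume.restrict (Icc a b)))
    {Ω Ωt Ω1 Ω2 : ℝ → ℝ → ℝ} {q : ℝ → ℝ} (hR : Rot (a ^ 2 / 4) (4 * b ^ 2) Ω Ωt Ω1 Ω2 q)
    (hRw : ∀ t, 0 < t → Ω t (a ^ 2) = 0 ∧ Ω t (b ^ 2) = 0)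
    (hRz : ∀ t, T ≤ t → q t = 0 ∧ ∀ s, Ω t s = 0)
    (hRl : Tendsto (fun t : ℝ => ∫⁻ s in Icc (a ^ 2) (b ^ 2), ‖√s * Ω t s - f (√s)‖ₑ ^ 2)
      (𝓝[>] 0) (𝓝 0))
    (hRe : ∫⁻ t in Ioi (0 : ℝ), ∫⁻ s in Icc (a ^ 2) (b ^ 2), (‖Ω t s‖ₑ ^ 2 + ‖Ω1 t s‖ₑ ^ 2) < ⊤)
    {A At A1 A2 : Fin d → ℝ → ℝ → ℝ} {Q : Fin d → ℝ → ℝ}
    (hA : ∀ i, Axi (a ^ 2 / 4) (4 * b ^ 2) (A i) (At i) (A1 i) (A2 i) (Q i))
    (hAw : ∀ i, ∀ t, 0 < t → A i t (a ^ 2) = 0 ∧ A i t (b ^ 2) = 0)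
    (hAz : ∀ i, ∀ t, T ≤ t → Q i t = 0 ∧ ∀ s, A i t s = 0)
    (hAl : ∀ i, Tendsto (fun t : ℝ => ∫⁻ s in Icc (a ^ 2) (b ^ 2), ‖A i t s - h i (√s)‖ₑ ^ 2)
      (𝓝[>] 0) (𝓝 0))
    (hAe : ∀ i, ∫⁻ t in Ioi (0 : ℝ), ∫⁻ s in Icc (a ^ 2) (b ^ 2),
      (‖A i t s‖ₑ ^ 2 + ‖A1 i t s‖ₑ ^ 2) < ⊤)
    {G N : Set (Sp d)} (hG : G ⊆ shell j k a b) (hN : IsOpen N) (hGN : G ⊆ N)
    (hNN : N ⊆ {x : Sp d | N2 j k x ∈ Ioo (a ^ 2 / 4) (4 * b ^ 2)})
    {p : ℝ → Sp d → ℝ}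
    (hpre : ContDiffOn ℝ ∞ (fun z : ℝ × Sp d => p z.1 z.2) (Ioi 0 ×ˢ N))
    (hmom : ∀ t, 0 < t → ∀ x ∈ G, (∀ n, deriv (fun s => vel j k Ω A s x n) t
      + ∑ i, vel j k Ω A t x i * pd i (fun y => vel j k Ω A t y n) x
      - ∑ i, pd i (pd i fun y => vel j k Ω A t y n) x + pd n (p t) x = 0) ∧
      ∑ i, pd i (fun y => vel j k Ω A t y i) x = 0) :
    StopsIn G (cylinders j k a b) T (dat j k f h) (vel j k Ω A) p := by
  have ha2 : 0 < a ^ 2 := by positivity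
  have hb : 0 < b := ha.trans hab
  have hab2 : a ^ 2 < b ^ 2 := by nlinarith
  have hs0 : a ^ 2 ∈ Ioo (a ^ 2 / 4) (4 * b ^ 2) := ⟨by linarith, by nlinarith⟩
  have hN0 : 0 < a ^ 2 / 4 := by positivity
  have hI : Icc (a ^ 2) (b ^ 2) ⊆ Ioo (a ^ 2 / 4) (4 * b ^ 2) := fun s hs =>
    ⟨by linarith [hs.1], by nlinarith [hs.2]⟩
  have hsm := hp4 d j k (a ^ 2 / 4) (4 * b ^ 2) (a ^ 2) Ω Ωt Ω1 Ω2 q A At A1 A2 Q hjk hN0 hs0 hR hA
  have hΩc : ContinuousOn (fun z : ℝ × ℝ => Ω z.1 z.2) (Ioi 0 ×ˢ Ioo (a ^ 2 / 4) (4 * b ^ 2)) :=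
    hR.smooth.continuousOn
  have hΩ1c := dcont hR.smooth hR.dx
  have hAc : ∀ i, ContinuousOn (fun z : ℝ × ℝ => A i z.1 z.2)
      (Ioi 0 ×ˢ Ioo (a ^ 2 / 4) (4 * b ^ 2)) := fun i => (hA i).smooth.continuousOn
  have hA1c := fun i => dcont (hA i).smooth (hA i).dx
  have hdiff : ∀ (t : ℝ) (x : Sp d), (∀ i, A i t (N2 j k x) = 0) → Ω t (N2 j k x) = 0 →
      vel j k Ω A t x = 0 := by
    intro t x h1 h2
    ext i
    change (if i = j then -(x k * Ω t (N2 j k x)) else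
      if i = k then x j * Ω t (N2 j k x) else A i t (N2 j k x)) = 0
    rw [h1 i, h2]
    split_ifs <;> simp
  have hbox : ∀ O : Set (Sp d), O ⊆ G → Bornology.IsBounded O →
      ∃ R : ℝ, O ⊆ {x : Sp d | x ∈ shell j k a b ∧ ∀ i, |x i| ≤ R} := by
    intro O hO hOb
    obtain ⟨R, hR'⟩ := hOb.exists_norm_le
    refine ⟨R, fun x hx => ⟨hG (hO hx), fun i => ?_⟩⟩
    exact (PiLp.norm_apply_le x i).trans (hR' x hx)
  have hsqf := hp8 a b ha hab f hf.1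
  have hsqh : ∀ i, AEMeasurable (fun s => h i (√s)) (volume.restrict (Icc (a ^ 2) (b ^ 2))) :=
    fun i => hp8 a b ha hab (h i) (hh i).1
  refine ⟨⟨N, hN, hGN, hsm.2.1.mono (prod_mono le_rfl hNN), hpre⟩, ?_, ?_, ?_, ?_, ?_, ?_⟩
  · intro t ht x hx
    exact (hmom t ht x hx).1
  · intro t ht x hx
    exact (hmom t ht x hx).2
  · intro t ht x hx
    rcases hx with hx | hx
    · exact hdiff t x (fun i => by rw [hx]; exact (hAw i t ht).1) (by rw [hx]; exact (hRw t ht).1)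
    · exact hdiff t x (fun i => by rw [hx]; exact (hAw i t ht).2) (by rw [hx]; exact (hRw t ht).2)
  · intro t ht x hx
    exact hdiff t x (fun i => (hAz i t ht).2 _) ((hRz t ht).2 _)
  · intro O hO hOm hOb
    obtain ⟨R, hOR⟩ := hbox O hO hOb
    obtain ⟨C, hC, hCs⟩ := hp7 d j k a b R hjk ha hab
    have hup : Tendsto (fun t : ℝ => C * ((∫⁻ s in Icc (a ^ 2) (b ^ 2),
        ‖√s * Ω t s - f (√s)‖ₑ ^ 2) + ∑ i, ∫⁻ s in Icc (a ^ 2) (b ^ 2), ‖A i t s - h i (√s)‖ₑ ^ 2))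
        (𝓝[>] 0) (𝓝 0) := by
      have h1 : Tendsto (fun t : ℝ => (∫⁻ s in Icc (a ^ 2) (b ^ 2),
        ‖√s * Ω t s - f (√s)‖ₑ ^ 2) + ∑ i, ∫⁻ s in Icc (a ^ 2) (b ^ 2), ‖A i t s - h i (√s)‖ₑ ^ 2)
        (𝓝[>] 0) (𝓝 (0 + ∑ i : Fin d, 0)) :=
        hRl.add (tendsto_finset_sum _ fun i _ => hAl i)
      have h2 := ENNReal.Tendsto.const_mul (a := C) h1 (Or.inr hC)
      simpa using h2
    refine tendsto_of_tendsto_of_tendsto_of_le_of_le' tendsto_const_nhds hup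
      (Eventually.of_forall fun t => bot_le) ?_
    filter_upwards [self_mem_nhdsWithin] with t ht
    have ht : 0 < t := ht
    have hm0 : AEMeasurable (fun s => ‖√s * Ω t s - f (√s)‖ₑ ^ 2)
        (volume.restrict (Icc (a ^ 2) (b ^ 2))) := by
      have h1 := slice hΩc hI ht
      have h2 : AEMeasurable (fun s : ℝ => √s) (volume.restrict (Icc (a ^ 2) (b ^ 2))) :=
        Real.continuous_sqrt.measurable.aemeasurable
      exact ((h2.mul h1).sub hsqf).enorm.pow_const 2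
    have hmi : ∀ i, AEMeasurable (fun s => ‖A i t s - h i (√s)‖ₑ ^ 2)
        (volume.restrict (Icc (a ^ 2) (b ^ 2))) := fun i =>
      ((slice (hAc i) hI ht).sub (hsqh i)).enorm.pow_const 2
    let Gt : ℝ → ℝ≥0∞ := fun s => ‖√s * Ω t s - f (√s)‖ₑ ^ 2 + ∑ i, ‖A i t s - h i (√s)‖ₑ ^ 2
    have hms : AEMeasurable (fun s => ∑ i, ‖A i t s - h i (√s)‖ₑ ^ 2)
        (volume.restrict (Icc (a ^ 2) (b ^ 2))) :=
      Finset.aemeasurable_fun_sum _ fun i _ => hmi i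
    have hmG : AEMeasurable Gt (volume.restrict (Icc (a ^ 2) (b ^ 2))) := hm0.add hms
    calc ∫⁻ x in O, ‖vel j k Ω A t x - dat j k f h x‖ₑ ^ 2
        ≤ ∫⁻ x in O, Gt (N2 j k x) := by
          refine setLIntegral_mono' hOm fun x hx => ?_
          have h1 : 0 < N2 j k x := lt_of_lt_of_le ha2 (hG (hO hx)).1
          exact hp6 d j k Ω A f h hjk t x h1
      _ ≤ ∫⁻ x in {x : Sp d | x ∈ shell j k a b ∧ ∀ i, |x i| ≤ R}, Gt (N2 j k x) :=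
          lintegral_mono_set hOR
      _ ≤ C * ∫⁻ s in Icc (a ^ 2) (b ^ 2), Gt s := hCs Gt hmG
      _ = _ := by
          congr 1
          change ∫⁻ s in Icc (a ^ 2) (b ^ 2), (‖√s * Ω t s - f (√s)‖ₑ ^ 2 +
            ∑ i, ‖A i t s - h i (√s)‖ₑ ^ 2) = _
          rw [lintegral_add_left' hm0, lintegral_finsetSum' _ fun i _ => hmi i]
  · intro O hO hOm hOb
    obtain ⟨R, hOR⟩ := hbox O hO hOb
    obtain ⟨C, hC, hCs⟩ := hp7 d j k a b R hjk ha hab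
    obtain ⟨C2, hC2, hgr⟩ := hp5 d j k a b hjk ha hab
    let E0 : ℝ → ℝ≥0∞ := fun t => ∫⁻ s in Icc (a ^ 2) (b ^ 2), (‖Ω t s‖ₑ ^ 2 + ‖Ω1 t s‖ₑ ^ 2)
    let E : Fin d → ℝ → ℝ≥0∞ := fun i t =>
      ∫⁻ s in Icc (a ^ 2) (b ^ 2), (‖A i t s‖ₑ ^ 2 + ‖A1 i t s‖ₑ ^ 2)
    have hE0m : AEMeasurable E0 (volume.restrict (Ioi 0)) := emeas hΩc hΩ1c hI
    have hEm : ∀ i, AEMeasurable (E i) (volume.restrict (Ioi 0)) := fun i =>
      emeas (hAc i) (hA1c i) hI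
    have hpt : ∀ t : ℝ, t ∈ Ioi (0 : ℝ) →
        ∫⁻ x in O, ∑ i, ∑ n, ‖pd i (fun y => vel j k Ω A t y n) x‖ₑ ^ 2 ≤
          C2 * (C * (E0 t + ∑ i, E i t)) := by
      intro t ht
      have ht : 0 < t := ht
      have hm0 : AEMeasurable (fun s => ‖Ω t s‖ₑ ^ 2 + ‖Ω1 t s‖ₑ ^ 2)
          (volume.restrict (Icc (a ^ 2) (b ^ 2))) :=
        ((slice hΩc hI ht).enorm.pow_const 2).add ((slice hΩ1c hI ht).enorm.pow_const 2)
      have hmi : ∀ i, AEMeasurable (fun s => ‖A1 i t s‖ₑ ^ 2)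
          (volume.restrict (Icc (a ^ 2) (b ^ 2))) := fun i =>
        (slice (hA1c i) hI ht).enorm.pow_const 2
      let Gt : ℝ → ℝ≥0∞ := fun s => ‖Ω t s‖ₑ ^ 2 + ‖Ω1 t s‖ₑ ^ 2 + ∑ i, ‖A1 i t s‖ₑ ^ 2
      have hms : AEMeasurable (fun s => ∑ i, ‖A1 i t s‖ₑ ^ 2)
          (volume.restrict (Icc (a ^ 2) (b ^ 2))) :=
        Finset.aemeasurable_fun_sum _ fun i _ => hmi i
      have hmG : AEMeasurable Gt (volume.restrict (Icc (a ^ 2) (b ^ 2))) := hm0.add hms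
      calc ∫⁻ x in O, ∑ i, ∑ n, ‖pd i (fun y => vel j k Ω A t y n) x‖ₑ ^ 2
          ≤ ∫⁻ x in O, C2 * Gt (N2 j k x) := by
            refine setLIntegral_mono' hOm fun x hx => ?_
            exact hgr Ω Ωt Ω1 Ω2 q A At A1 A2 Q hR hA t x ht (hG (hO hx))
        _ = C2 * ∫⁻ x in O, Gt (N2 j k x) := lintegral_const_mul' _ _ hC2
        _ ≤ C2 * (C * ∫⁻ s in Icc (a ^ 2) (b ^ 2), Gt s) :=
            mul_le_mul_right ((lintegral_mono_set hOR).trans (hCs Gt hmG)) _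
        _ ≤ C2 * (C * (E0 t + ∑ i, E i t)) := by
            refine mul_le_mul_right (mul_le_mul_right ?_ _) _
            have h1 : ∫⁻ s in Icc (a ^ 2) (b ^ 2), Gt s =
                E0 t + ∑ i, ∫⁻ s in Icc (a ^ 2) (b ^ 2), ‖A1 i t s‖ₑ ^ 2 := by
              change ∫⁻ s in Icc (a ^ 2) (b ^ 2), (‖Ω t s‖ₑ ^ 2 + ‖Ω1 t s‖ₑ ^ 2 +
                ∑ i, ‖A1 i t s‖ₑ ^ 2) = _
              rw [lintegral_add_left' hm0, lintegral_finsetSum' _ fun i _ => hmi i]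
            rw [h1]
            refine add_le_add_right (Finset.sum_le_sum fun i _ => ?_) _
            exact lintegral_mono fun s => le_add_self
    calc ∫⁻ t in Ioi (0 : ℝ), ∫⁻ x in O, ∑ i, ∑ n, ‖pd i (fun y => vel j k Ω A t y n) x‖ₑ ^ 2
        ≤ ∫⁻ t in Ioi (0 : ℝ), C2 * (C * (E0 t + ∑ i, E i t)) :=
          setLIntegral_mono' measurableSet_Ioi hpt
      _ = C2 * (C * ((∫⁻ t in Ioi (0 : ℝ), E0 t) + ∑ i, ∫⁻ t in Ioi (0 : ℝ), E i t)) := by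
          rw [lintegral_const_mul' _ _ hC2, lintegral_const_mul' _ _ hC,
            lintegral_add_left' hE0m, lintegral_finsetSum' _ fun i _ => hEm i]
      _ < ⊤ := by
          refine ENNReal.mul_lt_top hC2.lt_top (ENNReal.mul_lt_top hC.lt_top ?_)
          exact ENNReal.add_lt_top.2 ⟨hRe, ENNReal.sum_lt_top.2 fun i _ => hAe i⟩

/-- the positive part -/
theorem posA (hp1 : S_RTF) (hp2 : S_AXF) (hL : S_LAP) (hP : S_PRI) (hp4 : S_SMO) (hp5 : S_GRB)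
    (hp6 : S_CVL) (hp7 : S_SHL) (hp8 : S_SQM) (hA' : S_ANG) {d : ℕ} {j k : Fin d} {a b T : ℝ}
    (hjk : j ≠ k) (ha : 0 < a) (hab : a < b) (hT : 0 < T)
    {h : Fin d → ℝ → ℝ} (hh : ∀ i, MemLp (h i) 2 (volume.restrict (Icc a b)))
    {f : ℝ → ℝ} (hf : MemLp f 2 (volume.restrict (Icc a b))) {N : Set (Sp d)} {θ : Sp d → ℝ}
    (hN : IsOpen N) (hθ : IsAngle j k N θ) :
    ∃ (Ω : ℝ → ℝ → ℝ) (A : Fin d → ℝ → ℝ → ℝ) (p : ℝ → Sp d → ℝ),
      StopsIn (shell j k a b ∩ N) (cylinders j k a b) T (dat j k f h) (vel j k Ω A) p := by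
  have ha2 : 0 < a ^ 2 := by positivity
  have hb : 0 < b := ha.trans hab
  have hN0 : 0 < a ^ 2 / 4 := by positivity
  have hs0 : a ^ 2 ∈ Ioo (a ^ 2 / 4) (4 * b ^ 2) := ⟨by linarith, by nlinarith⟩
  choose A At A1 A2 Q hA hAw hAz hAl hAe using fun i => hp2 a b T ha hab hT (h i) (hh i)
  have hshell : shell j k a b ⊆ {x : Sp d | N2 j k x ∈ Ioo (a ^ 2 / 4) (4 * b ^ 2)} := by
    intro x hx
    have h1 : a ^ 2 ≤ N2 j k x := hx.1
    have h2 : N2 j k x ≤ b ^ 2 := hx.2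
    exact ⟨by linarith, by nlinarith⟩
  obtain ⟨Ω, Ωt, Ω1, Ω2, q, hR, hRw, hRz, hRl, hRe⟩ := hp1 a b T ha hab hT f hf
  have hsm := hp4 d j k (a ^ 2 / 4) (4 * b ^ 2) (a ^ 2) Ω Ωt Ω1 Ω2 q A At A1 A2 Q hjk hN0 hs0
    hR hA
  have hNo : IsOpen ({x : Sp d | N2 j k x ∈ Ioo (a ^ 2 / 4) (4 * b ^ 2)} ∩ N) := hsm.1.inter hN
  have hSA : SA j k ({x : Sp d | N2 j k x ∈ Ioo (a ^ 2 / 4) (4 * b ^ 2)} ∩ N) θ :=
    hA' d j k hjk _ θ hNo (fun x hx => hN0.trans hx.1.1)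
      ⟨hθ.cont.mono inter_subset_right, fun x hx => hθ.cos x hx.2, fun x hx => hθ.sin x hx.2⟩
  have hpre := smoA hP hs0 hR hA hSA
  refine ⟨Ω, A, preA j k (a ^ 2) Ω q Q θ, ?_⟩
  exact stopsA hp4 hp5 hp6 hp7 hp8 hjk ha hab hh hf hR hRw hRz hRl hRe hA hAw hAz hAl hAe
    (G := shell j k a b ∩ N)
    (N := {x : Sp d | N2 j k x ∈ Ioo (a ^ 2 / 4) (4 * b ^ 2)} ∩ N)
    inter_subset_left hNo (inter_subset_inter_left _ hshell)
    inter_subset_left (hpre.mono (prod_mono subset_rfl fun x hx => ⟨hx.1, hx⟩))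
    (fun t ht x hx => momA hL hP hjk hN0 hs0 hR hA hNo hSA ht (hshell hx.1) ⟨hshell hx.1, hx.2⟩)

/-- the positive part in the whole shell -/
theorem posB (hp2 : S_AXF) (hL : S_LAP) (hP : S_PRI) (hp4 : S_SMO) (hp5 : S_GRB)
    (hp6 : S_CVL) (hp7 : S_SHL) (hp8 : S_SQM) (hp3 : S_MOM) {d : ℕ} {j k : Fin d} {a b T : ℝ}
    (hjk : j ≠ k) (ha : 0 < a) (hab : a < b) (hT : 0 < T)
    {h : Fin d → ℝ → ℝ} (hh : ∀ i, MemLp (h i) 2 (volume.restrict (Icc a b)))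
    {f : ℝ → ℝ} (hf : MemLp f 2 (volume.restrict (Icc a b)))
    (hf0 : (fun s => f (√s)) =ᵐ[volume.restrict (Icc (a ^ 2) (b ^ 2))] 0) :
    ∃ (Ω : ℝ → ℝ → ℝ) (A : Fin d → ℝ → ℝ → ℝ) (p : ℝ → Sp d → ℝ),
      StopsIn (shell j k a b) (cylinders j k a b) T (dat j k f h) (vel j k Ω A) p := by
  have ha2 : 0 < a ^ 2 := by positivity
  have hb : 0 < b := ha.trans hab
  have hN0 : 0 < a ^ 2 / 4 := by positivity
  have hs0 : a ^ 2 ∈ Ioo (a ^ 2 / 4) (4 * b ^ 2) := ⟨by linarith, by nlinarith⟩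
  choose A At A1 A2 Q hA hAw hAz hAl hAe using fun i => hp2 a b T ha hab hT (h i) (hh i)
  have hshell : shell j k a b ⊆ {x : Sp d | N2 j k x ∈ Ioo (a ^ 2 / 4) (4 * b ^ 2)} := by
    intro x hx
    have h1 : a ^ 2 ≤ N2 j k x := hx.1
    have h2 : N2 j k x ≤ b ^ 2 := hx.2
    exact ⟨by linarith, by nlinarith⟩
  have hR : Rot (a ^ 2 / 4) (4 * b ^ 2) (fun _ _ => 0) (fun _ _ => 0) (fun _ _ => 0)
      (fun _ _ => 0) (fun _ => 0) :=
    ⟨contDiffOn_const, contDiffOn_const, fun t s _ _ => hasDerivAt_const _ _,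
      fun t s _ _ => hasDerivAt_const _ _, fun t s _ _ => hasDerivAt_const _ _,
      fun t s _ _ => by simp⟩
  have hsm := hp4 d j k (a ^ 2 / 4) (4 * b ^ 2) (a ^ 2) _ _ _ _ _ A At A1 A2 Q hjk hN0 hs0
    hR hA
  refine ⟨fun _ _ => 0, A, pre j k (a ^ 2) (fun _ _ => 0) (fun _ => 0) Q, ?_⟩
  refine stopsA hp4 hp5 hp6 hp7 hp8 hjk ha hab hh hf hR (fun t _ => ⟨rfl, rfl⟩)
    (fun t _ => ⟨rfl, fun s => rfl⟩) ?_ (by simp) hA hAw hAz hAl hAe
    (G := shell j k a b) (N := {x : Sp d | N2 j k x ∈ Ioo (a ^ 2 / 4) (4 * b ^ 2)})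
    subset_rfl hsm.1 hshell subset_rfl (hsm.2.2.2 fun _ _ => rfl)
    (fun t ht x hx => hp3 d j k (a ^ 2 / 4) (4 * b ^ 2) (a ^ 2) _ _ _ _ _ A At A1 A2 Q hjk hN0 hs0
      hR hA t x ht (hshell hx) (Or.inr rfl))
  have h0 : ∀ t : ℝ, ∫⁻ s in Icc (a ^ 2) (b ^ 2), ‖√s * (0 : ℝ) - f (√s)‖ₑ ^ 2 = 0 := by
    intro t
    have h1 : ∫⁻ s in Icc (a ^ 2) (b ^ 2), ‖√s * (0 : ℝ) - f (√s)‖ₑ ^ 2 =
        ∫⁻ s in Icc (a ^ 2) (b ^ 2), (0 : ℝ≥0∞) := by
      refine lintegral_congr_ae ?_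
      filter_upwards [hf0] with s hs
      have hs' : f (√s) = 0 := hs
      rw [hs']
      simp
    rw [h1, lintegral_zero]
  have h2 : (fun _ : ℝ => ∫⁻ s in Icc (a ^ 2) (b ^ 2), ‖√s * (0 : ℝ) - f (√s)‖ₑ ^ 2) =
      fun _ : ℝ => (0 : ℝ≥0∞) := funext h0
  change Tendsto (fun _ : ℝ => ∫⁻ s in Icc (a ^ 2) (b ^ 2), ‖√s * (0 : ℝ) - f (√s)‖ₑ ^ 2)
    (𝓝[>] 0) (𝓝 0)
  rw [h2]
  exact tendsto_const_nhds

end Pool.Agent.Q62.CC
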