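import Pool.Agent.Q62.CC.Defs

/-!
# Project CC: statements with proofs

All definitions are in `Pool.Agent.Q62.CC.Defs` (short).  Useful models: `Pool/Agent/Q61/NC/Flat.lean`
(series of jets), `Free.lean` (free jets), `Jet.lean` (`IsJet`, `Bd`, `mulJ`), `L2.lean`, `Pos.lean`,
`Plate.lean` (from scalar profiles to Navier-Stokes fields in `StopsIn`), all by helper61.
-/

set_option autoImplicit false

open Set Filter Topology MeasureTheory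
open scoped ENNReal ContDiff

namespace Pool.Agent.Q62.CC

open Pool.Agent.Q61.NC (IsJet Bd mulJ Good sh Sp pd StopsIn)

/-! ## Part 1: the fundamental solutions -/

/-- S_DER. By induction on `k`: `cf m α k`, `sf m α k` are continuous on `(x₀, x₁)`. For continuous `h`
on the open interval and `x` in it, `F x = ∫_α^x (x - y) (m y * h y) = x ∫_α^x m h - ∫_α^x y m h` has the
derivative `∫_α^x m h + x m x h x - x m x h x`, and `∫_α^x m h` has the derivative `m x * h x`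
(`intervalIntegral.integral_hasDerivAt_right`; `m` is continuous on the interval by `Wt.smooth`). -/
def S_DER : Prop := ∀ (m : ℝ → ℝ) (x₀ x₁ α β M c : ℝ), Wt m x₀ x₁ α β M c →
  ∀ (k : ℕ) (x : ℝ), x ∈ Ioo x₀ x₁ →
    HasDerivAt (cf m α k) (cd m α k x) x ∧ HasDerivAt (sf m α k) (sd m α k x) x ∧
    HasDerivAt (cd m α (k + 1)) (m x * cf m α k x) x ∧
    HasDerivAt (sd m α (k + 1)) (m x * sf m α k x) x ∧
    HasDerivAt (cd m α 0) 0 x ∧ HasDerivAt (sd m α 0) 0 x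

/-- S_BND. By induction on `k`, from the integral formulas: `|∫_α^x |x - y| M^(k+1) |y - α|^n / n!| =
M^(k+1) |x - α|^(n+2) / (n+2)!` and `|∫_α^x M^(k+1) |y - α|^n / n!| = M^(k+1) |x - α|^(n+1) / (n+1)!`
(both cases `x ≥ α` and `x ≤ α`; continuity of the `cf`, `sf` from S_DER). -/
def S_BND : Prop := ∀ (m : ℝ → ℝ) (x₀ x₁ α β M c : ℝ), Wt m x₀ x₁ α β M c →
  ∀ (k : ℕ) (x : ℝ), x ∈ Ioo x₀ x₁ →
    |cf m α k x| ≤ M ^ k * |x - α| ^ (2 * k) / ((2 * k).factorial : ℝ) ∧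
    |sf m α k x| ≤ M ^ k * |x - α| ^ (2 * k + 1) / ((2 * k + 1).factorial : ℝ) ∧
    |cd m α (k + 1) x| ≤ M ^ (k + 1) * |x - α| ^ (2 * k + 1) / ((2 * k + 1).factorial : ℝ) ∧
    |sd m α k x| ≤ M ^ k * |x - α| ^ (2 * k) / ((2 * k).factorial : ℝ)

/-- S_FAM. `dv`: sum of S_DER. `dw0`: `vd 0 = cf 1 β * sd 0 - sf 0 β * cd 1`, derivative
`0 - sf 0 β * (m * cf 0) = m * (0 - kq 0)`. `dw (k+1)`: the derivative of `vd (k+1)` is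
`∑_{j ≤ k+1} cf (k+1-j+1) β * (sd j)' - sf (k+1-j) β * m * cf j`; `(sd 0)' = 0`, `(sd (i+1))' = m sf i`, so it
is `m (∑_{i ≤ k} cf (k-i+1) β sf i - ∑_{j ≤ k+1} sf (k+1-j) β cf j)`; the term `j = 0` of the last sum is
`sf (k+1) β = kq (k+1)` and the terms `j = i + 1` are `sf (k-i) β cf (i+1)`: total
`m (vv k - kq (k+1))`. `va`: `sf j α = 0` and `cf (j+1) α = 0` (integrals from `α` to `α`). `vb`: reflect the
sum (`Finset.sum_range_reflect`): `∑ cf (k-j+1) β sf j β = ∑ sf (k-j) β cf (j+1) β`. Bounds: with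
`L = x₁ - x₀`, S_BND gives for every term `≤ M^(k+1) L^(2k+3) / (a! b!)`, `a + b = 2k+3` (for `vd`: `2k+2` and
`L^(2k+2)`), and `1/(a! b!) ≤ 2^(a+b)/(a+b)!`; there are `2(k+1) ≤ 2^(k+1)` terms and `(2k+3)!,
(2k+2)! ≥ (2k)!`; `K = 8 M L^2`, `D` a large constant (for `kq` as well). (`M > 0` since `0 < m ≤ M`.) -/
def S_FAM : Prop := ∀ (m : ℝ → ℝ) (x₀ x₁ α β M c : ℝ), Wt m x₀ x₁ α β M c →
  ∃ D K : ℝ, Fam m x₀ x₁ α β (vv m α β) (vd m α β) (kq m α β) D K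

/-- S_ODE. Differentiation of the power series term by term (`hasDerivAt_tsum_of_isPreconnected` on
`Ioo x₀ x₁`, bounds S_BND, `|x - α| ≤ x₁ - x₀`, derivatives S_DER; `∑ (M L^2 |z|)^k / (2k)!` converges); for
`Cdz` and `Sdz` shift the index (`cd 0 = 0`, `sd 0 = 1`). Values at `α`: only the term `k = 0`. Wronskian:
`Cz * Sdz - Cdz * Sz` has derivative zero on the interval and is `1` at `α`
(`is_const_of_deriv_eq_zero`-type lemma on an interval). For `Vz` use S_FAM. -/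
def S_ODE : Prop := ∀ (m : ℝ → ℝ) (x₀ x₁ α β M c : ℝ), Wt m x₀ x₁ α β M c → ∀ z : ℝ,
  Cz m α z α = 1 ∧ Cdz m α z α = 0 ∧ Sz m α z α = 0 ∧ Sdz m α z α = 1 ∧
  ∀ x ∈ Ioo x₀ x₁,
    HasDerivAt (Cz m α z) (Cdz m α z x) x ∧ HasDerivAt (Cdz m α z) (z * (m x * Cz m α z x)) x ∧
    HasDerivAt (Sz m α z) (Sdz m α z x) x ∧ HasDerivAt (Sdz m α z) (z * (m x * Sz m α z x)) x ∧
    HasDerivAt (Vz m α β z) (Vdz m α β z x) x ∧
    Cz m α z x * Sdz m α z x - Cdz m α z x * Sz m α z x = 1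

/-- S_VVS. Cauchy product of absolutely convergent series (`tsum_mul_tsum_eq_tsum_sum_antidiagonal_of_...`
or `..._range_...`): the coefficient of `z^(k+1)` in `-(∑_{i ≥ 1} cf i β z^i)(...)`. In detail
`1 - Cz x = -∑_{j} cf (j+1) x z^(j+1)`, so the right side is `z` times the sum over `k` of
`z^k ∑_{j ≤ k} (cf (k-j+1) β sf j x - sf (k-j) β cf (j+1) x)`. Same with `sd`, `cd` for the second. -/
def S_VVS : Prop := ∀ (m : ℝ → ℝ) (x₀ x₁ α β M c : ℝ), Wt m x₀ x₁ α β M c → ∀ z : ℝ,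
  ∀ x ∈ Ioo x₀ x₁,
    z * Vz m α β z x = Sz m α z β * (1 - Cz m α z x) - (1 - Cz m α z β) * Sz m α z x ∧
    z * Vdz m α β z x = -(Sz m α z β * Cdz m α z x) - (1 - Cz m α z β) * Sdz m α z x

/-! ## Part 2: series with jets -/

/-- S_SRA. As `hasFDerivAt_FE`, `hasFDerivAt_FO` in `Pool/Agent/Q61/NC/Flat.lean`:
`hasFDerivAt_tsum_of_isPreconnected` on `Ioi (t/2) ×ˢ Ioo x₀ x₁`; `Good (√K) Z` gives
`|Z k s| ≤ C r^k (2k)!` for `s ≥ t/2` with `r K < 1` (`√K ^ 2 = K`), so the terms are `≤ C D (r K)^k`; use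
`Good.shift` for the terms with `Z (k+1)`. For `SV w`: the terms `Z k t * (w k)'` sum to
`m x * (∑ Z (k+1) t v k x - ∑ Z k t κ k)` (shift of the index, `dw0`, `dw`). -/
def S_SRA : Prop := ∀ (m : ℝ → ℝ) (x₀ x₁ α β M : ℝ) (v w : ℕ → ℝ → ℝ) (κ : ℕ → ℝ) (D K : ℝ),
  (∀ x ∈ Ioo x₀ x₁, |m x| ≤ M) →
  Fam m x₀ x₁ α β v w κ D K → ∀ Z : ℕ → ℝ → ℝ, Good (√K) Z →
  ∀ t x : ℝ, 0 < t → x ∈ Ioo x₀ x₁ →
    HasFDerivAt (fun z : ℝ × ℝ => SV v Z z.1 z.2)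
      (SV v (sh Z) t x • ContinuousLinearMap.fst ℝ ℝ ℝ +
        SV w Z t x • ContinuousLinearMap.snd ℝ ℝ ℝ) (t, x) ∧
    HasFDerivAt (fun z : ℝ × ℝ => SV w Z z.1 z.2)
      (SV w (sh Z) t x • ContinuousLinearMap.fst ℝ ℝ ℝ +
        (m x * (SV v (sh Z) t x - SQ κ Z t)) • ContinuousLinearMap.snd ℝ ℝ ℝ) (t, x) ∧
    HasDerivAt (SQ κ Z) (SQ κ (sh Z) t) t

/-- S_SRB. As `smooth_nat` in `Flat.lean`: by induction on `n`, for all good `Z` at once, the two functions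
are `C^n` on the open set and `SQ κ Z` is `C^n` on `(0, ∞)`, from S_SRA (the derivatives are expressed by the
same functions for `Z` and `sh Z` and by `m`). -/
def S_SRB : Prop := ∀ (m : ℝ → ℝ) (x₀ x₁ α β M : ℝ) (v w : ℕ → ℝ → ℝ) (κ : ℕ → ℝ) (D K : ℝ),
  (∀ x ∈ Ioo x₀ x₁, |m x| ≤ M) → ContDiffOn ℝ ∞ m (Ioo x₀ x₁) → Fam m x₀ x₁ α β v w κ D K → ∀ Z : ℕ → ℝ → ℝ, Good (√K) Z →
    ContDiffOn ℝ ∞ (fun z : ℝ × ℝ => SV v Z z.1 z.2) (Ioi 0 ×ˢ Ioo x₀ x₁) ∧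
    ContDiffOn ℝ ∞ (fun z : ℝ × ℝ => SV w Z z.1 z.2) (Ioi 0 ×ˢ Ioo x₀ x₁) ∧
    ContDiffOn ℝ ∞ (SQ κ Z) (Ioi 0)

/-- S_FRJ. Model: `Free.lean`. With `l ≥ l₀ > 0` (the squares of the `1 / l i` are summable, so bounded):
`|g i| l^n e^(-l t) ≤ A (1+l)^2 l^2 e^(-l t₁/2) · l^n e^(-l t₁/2) · l^(-2)` for `t ≥ t₁`, with
`(1+l)^2 l^2 e^(-l t₁/2)` bounded by a constant depending on `t₁` and
`l^n e^(-l t₁/2) ≤ n! (2/t₁)^n` (`Real.pow_div_factorial_le_exp`); `∑ l^(-2) < ∞`. This is the third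
statement with `C` depending on `t₁`; `hasDerivAt_tsum_of_isPreconnected` gives `IsJet`; and
`n! (2/t₁)^n ≤ C' r^n (2n)!` for every `r > 0` (as `n! x^n / (2n)! ≤ x^n / n!` is bounded) gives `Bd r`. -/
def S_FRJ : Prop := ∀ (ι : Type) [Countable ι] (l g : ι → ℝ) (A : ℝ), 0 ≤ A → (∀ i, 0 < l i) →
  (Summable fun i => ((l i)⁻¹) ^ 2) → (∀ i, |g i| ≤ A * (1 + l i) ^ 2) →
    IsJet (fj l g) ∧ (∀ r : ℝ, 0 < r → Bd r (fj l g)) ∧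
    ∀ t₁ : ℝ, 0 < t₁ → ∃ C : ℝ, 0 ≤ C ∧ ∀ (n : ℕ) (t : ℝ), t₁ ≤ t →
      (Summable fun i => |g i| * l i ^ n * Real.exp (-(l i * t))) ∧
      ∑' i, |g i| * l i ^ n * Real.exp (-(l i * t)) ≤ C * (2 / t₁) ^ n * (n.factorial : ℝ)

/-- S_SWP. Fubini for the double series `g i (-l i)^k e^(-l i t) v k`: it is absolutely summable, since
`∑_k (∑_i |g i| l_i^k e^(-l_i t)) |v k| ≤ ∑_k C (2/t)^k k! D K^k / (2k)! < ∞` by S_FRJ (third statement,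
`t₁ = t`), as `k!/(2k)! ≤ 1/k!`. (`summable_prod_of_nonneg`, `Summable.tsum_comm`.) -/
def S_SWP : Prop := ∀ (ι : Type) [Countable ι] (l g : ι → ℝ) (A : ℝ), 0 ≤ A → (∀ i, 0 < l i) →
  (Summable fun i => ((l i)⁻¹) ^ 2) → (∀ i, |g i| ≤ A * (1 + l i) ^ 2) →
  ∀ (v : ℕ → ℝ) (D K : ℝ), 0 ≤ D → 0 < K → (∀ k, |v k| ≤ D * K ^ k / ((2 * k).factorial : ℝ)) →
  ∀ t : ℝ, 0 < t →
    ∑' k : ℕ, fj l g k t * v k = ∑' i, g i * Real.exp (-(l i * t)) * ∑' k : ℕ, v k * (-l i) ^ k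

/-! ## Part 3: the eigenfunctions -/

/-- S_HSA. Integral operators with continuous kernel on `L²(α, β)` are compact. `T g = ∫ K(x, y) g(y) dy` is
bounded (Cauchy-Schwarz). `K` is uniformly continuous on the square: for a partition of `[α, β]` into `n`
intervals `I_i` with points `x_i`, the operator with the kernel `∑_i 1_{I_i}(x) K(x_i, y)` has finite rank and
its distance from `T` is at most `ε (β - α)`; limits of finite rank operators are compact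
(`isCompactOperator_of_tendsto`). (Alternatively Arzela-Ascoli.) -/
def S_HSA : Prop := ∀ (α β : ℝ) (K : ℝ → ℝ → ℝ), α < β →
  ContinuousOn (fun p : ℝ × ℝ => K p.1 p.2) (Icc α β ×ˢ Icc α β) →
  ∃ T : Lp ℝ 2 (volume.restrict (Icc α β)) →L[ℝ] Lp ℝ 2 (volume.restrict (Icc α β)),
    IsCompactOperator T ∧ ∀ g : Lp ℝ 2 (volume.restrict (Icc α β)),
      (T g : ℝ → ℝ) =ᵐ[volume.restrict (Icc α β)] fun x => ∫ y in Icc α β, K x y * g y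

/-- S_HSB. Let `T` be the operator of S_HSA; it is symmetric (Fubini, symmetry of `K`) and injective: if
`T g = 0` then `∫ K x y g y dy = 0` for almost all, hence (continuity in `x`) for all `x ∈ [α, β]`, so `g = 0`.
`Pool.Agent.H631R3.discrete_of_green` (file `Pool/Agent/H631R3/Spec.lean`, with `K = ⊥` and
`L f h := f = T h`), or directly `ContinuousLinearMap.orthogonalComplement_iSup_eigenspaces_eq_bot`, gives a
Hilbert basis `b i` with `T (b i) = μ i • b i`, `μ i ≠ 0` by injectivity; the index set is countable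
(`L²` is separable; or restrict to a countable index set). Put `ψ i x = μ i ⁻¹ ∫ K x y b_i y dy`: continuous on
`[α, β]`, almost everywhere equal to `b i`. Parseval: `HilbertBasis.hasSum_inner_mul_inner` or
`hasSum_sq_norm`-type lemma. -/
def S_HSB : Prop := ∀ (α β : ℝ) (K : ℝ → ℝ → ℝ), α < β →
  ContinuousOn (fun p : ℝ × ℝ => K p.1 p.2) (Icc α β ×ˢ Icc α β) →
  (∀ x ∈ Icc α β, ∀ y ∈ Icc α β, K x y = K y x) →
  (∀ g : ℝ → ℝ, MemLp g 2 (volume.restrict (Icc α β)) →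
    (∀ x ∈ Icc α β, ∫ y in Icc α β, K x y * g y = 0) → g =ᵐ[volume.restrict (Icc α β)] 0) →
  ∃ (ι : Type) (_ : Countable ι) (ψ : ι → ℝ → ℝ) (μ : ι → ℝ),
    (∀ i, ContinuousOn (ψ i) (Icc α β)) ∧ (∀ i, μ i ≠ 0) ∧
    (∀ i, ∀ x ∈ Icc α β, ∫ y in Icc α β, K x y * ψ i y = μ i * ψ i x) ∧
    (∀ i, ∫ x in Icc α β, ψ i x ^ 2 = 1) ∧
    (∀ i j, i ≠ j → ∫ x in Icc α β, ψ i x * ψ j x = 0) ∧
    (∀ f : ℝ → ℝ, MemLp f 2 (volume.restrict (Icc α β)) →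
      HasSum (fun i => (∫ x in Icc α β, f x * ψ i x) ^ 2) (∫ x in Icc α β, f x ^ 2))

/-- S_INJ. For `x ∈ [α, β]`: `(β - α) ∫ Gr x y h y = (β - x) ∫_α^x (y - α) h + (x - α) ∫_x^β (β - y) h`. With
`H x = ∫_α^x h`, integration by parts turns this into `∫_α^x`-integrals of `H`: the function
`F x = ∫ Gr x y h y dy` satisfies `F x = (x - α) B - ∫_α^x H y dy`, `B` a constant. So `∫_α^x H = (x - α) B` on
`[α, β]`, `H` is continuous, hence `H = B` on `(α, β)`, `B = H α = 0`, so `∫_α^x h = 0` for all `x` in `[α, β]`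
and `h = 0` almost everywhere (`ae_eq_zero_of_forall_setIntegral...` on intervals). -/
def S_INJ : Prop := ∀ (α β : ℝ) (h : ℝ → ℝ), α < β → IntegrableOn h (Icc α β) →
  (∀ x ∈ Icc α β, ∫ y in Icc α β, Gr α β x y * h y = 0) → h =ᵐ[volume.restrict (Icc α β)] 0

/-- S_EIG. S_HSB for `K x y = √(m x) * Gr α β x y * √(m y)` (continuous, symmetric; injective by S_INJ with
`h = √m g`, as `√(m x) > 0`); `φ i = ψ i / √m`; Parseval for `f` is Parseval of S_HSB for `√m f`. -/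
def S_EIG : Prop := ∀ (m : ℝ → ℝ) (x₀ x₁ α β M c : ℝ), Wt m x₀ x₁ α β M c →
  ∃ (ι : Type) (_ : Countable ι) (φ : ι → ℝ → ℝ) (μ : ι → ℝ),
    (∀ i, ContinuousOn (φ i) (Icc α β)) ∧ (∀ i, μ i ≠ 0) ∧
    (∀ i, ∀ x ∈ Icc α β, ∫ y in Icc α β, Gr α β x y * (m y * φ i y) = μ i * φ i x) ∧
    (∀ i, ∫ x in Icc α β, m x * φ i x ^ 2 = 1) ∧
    (∀ i j, i ≠ j → ∫ x in Icc α β, m x * (φ i x * φ j x) = 0) ∧
    (∀ f : ℝ → ℝ, MemLp f 2 (volume.restrict (Icc α β)) →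
      HasSum (fun i => (∫ x in Icc α β, m x * (f x * φ i x)) ^ 2) (∫ x in Icc α β, m x * f x ^ 2))

/-- S_GRD. With `(β - α) ∫ Gr x y h y = (β - x) ∫_α^x (y - α) h + (x - α) ∫_x^β (β - y) h` one differentiates:
`F x = ∫ Gr x y h y` has on `[α, β]` (one-sided at the ends) the derivative
`F' x = (∫_x^β (β - y) h - ∫_α^x (y - α) h) / (β - α)`, and `F'' = -h`. `F α = F β = 0`. -/
def S_GRD : Prop := ∀ (α β : ℝ) (h : ℝ → ℝ), α < β → ContinuousOn h (Icc α β) →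
  ∃ F' : ℝ → ℝ,
    (∀ x ∈ Icc α β, HasDerivWithinAt (fun x => ∫ y in Icc α β, Gr α β x y * h y) (F' x) (Icc α β) x) ∧
    (∀ x ∈ Icc α β, HasDerivWithinAt F' (-h x) (Icc α β) x) ∧
    (∫ y in Icc α β, Gr α β α y * h y = 0) ∧ (∫ y in Icc α β, Gr α β β y * h y = 0)

/-- S_EFN. By S_GRD with `h = m φ`: `φ` has a derivative `φ'` on `[α, β]`, `φ'' = -μ⁻¹ m φ`,
`φ α = φ β = 0`. Put `z = -μ⁻¹`, `p = φ' α`. The functions `φ Sdz - φ' Sz` and `φ Cdz - φ' Cz + p` have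
derivative zero within `[α, β]` (S_ODE) and vanish at `α`; with the Wronskian
`φ = φ (Cz Sdz - Cdz Sz) = Cz φ' Sz - Sz (φ' Cz - p) = p Sz`. So `φ = p Sz` on `[α, β]`, `Sz β = 0` because
`p ≠ 0` (else `φ = 0`, against `∫ m φ² = 1`). Positivity: `∫ φ'^2 = [φ φ']  - ∫ φ φ'' = μ⁻¹ ∫ m φ² = μ⁻¹`,
so `μ⁻¹ ≥ 0`, and `μ ≠ 0`. -/
def S_EFN : Prop := ∀ (m : ℝ → ℝ) (x₀ x₁ α β M c : ℝ), Wt m x₀ x₁ α β M c →
  ∀ (φ : ℝ → ℝ) (μ : ℝ), ContinuousOn φ (Icc α β) → μ ≠ 0 →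
    (∀ x ∈ Icc α β, ∫ y in Icc α β, Gr α β x y * (m y * φ y) = μ * φ x) →
    ∫ x in Icc α β, m x * φ x ^ 2 = 1 →
    0 < μ ∧ Sz m α (-μ⁻¹) β = 0 ∧ ∃ p : ℝ, ∀ x ∈ Icc α β, φ x = p * Sz m α (-μ⁻¹) x

/-- S_BDS. Write `S = Sz m α (-l)`, `S'' = -l m S`, `S α = S β = 0`, `S' α = 1` (S_ODE). `E = S'^2 + l m S^2`
has the derivative `l m' S^2 ≤ -c l m S^2 ≤ 0` on `[α, β]`, so `E ≤ E α = 1`: `|S'| ≤ 1`, `|S| ≤ β - α`.
`E / m` has the derivative `-S'^2 m' / m^2 ≥ 0`, so `E x ≥ m x / m α ≥ m β / m α` (`m` is antitone).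
`∫ S'^2 = l ∫ m S^2` (integrate `(S S')' = S'^2 - l m S^2`), so `2 l ∫ m S^2 = ∫ E ≥ (β - α) m β / m α`:
first bound. `1 - S'(β)^2 = E α - E β ≥ c l ∫ m S^2 = (c/2) ∫ E ≥ (c/2)(β - α) E β = (c/2)(β - α) S'(β)^2`. By
the Wronskian at `β`: `Cz β * S' β = 1`, so `(Cz β)^2 ≥ 1 + c (β - α)/2` and
`|1 - Cz β| ≥ |Cz β| - 1 ≥ √(1 + c (β - α)/2) - 1 > 0`: second bound. -/
def S_BDS : Prop := ∀ (m : ℝ → ℝ) (x₀ x₁ α β M c : ℝ), Wt m x₀ x₁ α β M c →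
  ∃ A₀ δ₀ : ℝ, 0 < A₀ ∧ 0 < δ₀ ∧ ∀ l : ℝ, 0 < l → Sz m α (-l) β = 0 →
    A₀ ≤ l * (∫ x in Icc α β, m x * Sz m α (-l) x ^ 2) ∧
    δ₀ ≤ |1 - Cz m α (-l) β| ∧
    (∀ x ∈ Icc α β, |Sdz m α (-l) x| ≤ 1 ∧ |Sz m α (-l) x| ≤ β - α)

/-- S_DOR. Integration by parts (S_ODE): `(S_l S'_n)' = S'_l S'_n - n m S_l S_n` and the boundary values of
`S_l` vanish. -/
def S_DOR : Prop := ∀ (m : ℝ → ℝ) (x₀ x₁ α β M c : ℝ), Wt m x₀ x₁ α β M c →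
  ∀ l n : ℝ, Sz m α (-l) β = 0 → Sz m α (-n) β = 0 →
    ∫ x in Icc α β, Sdz m α (-l) x * Sdz m α (-n) x =
      n * ∫ x in Icc α β, m x * (Sz m α (-l) x * Sz m α (-n) x)

/-- S_TRC. For each `x ∈ [α, β]` Parseval for `f = Gr α β x` gives
`∑_i (μ i φ i x)^2 = ∫ m(y) Gr(x,y)^2 dy ≤ B`. For a finite set `s` of indices
`∑_{i ∈ s} μ_i^2 = ∑_{i ∈ s} ∫ m (μ_i φ_i)^2 = ∫ m ∑_{i ∈ s} (μ_i φ_i)^2 ≤ B ∫ m`; so the sum converges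
(`summable_of_sum_le`). -/
def S_TRC : Prop := ∀ (m : ℝ → ℝ) (x₀ x₁ α β M c : ℝ), Wt m x₀ x₁ α β M c →
  ∀ (ι : Type) (φ : ι → ℝ → ℝ) (μ : ι → ℝ), (∀ i, ContinuousOn (φ i) (Icc α β)) →
    (∀ i, ∀ x ∈ Icc α β, ∫ y in Icc α β, Gr α β x y * (m y * φ i y) = μ i * φ i x) →
    (∀ i, ∫ x in Icc α β, m x * φ i x ^ 2 = 1) →
    (∀ f : ℝ → ℝ, MemLp f 2 (volume.restrict (Icc α β)) →
      HasSum (fun i => (∫ x in Icc α β, m x * (f x * φ i x)) ^ 2) (∫ x in Icc α β, m x * f x ^ 2)) →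
    Summable fun i => μ i ^ 2

/-- S_SPC. Take `φ`, `μ` from S_EIG, `l i = (μ i)⁻¹ > 0` (S_EFN), `φ i = p i * Sz m α (-l i)` on `[α, β]`,
`Sz m α (-l i) β = 0`. S_VVS with `z = -l i`: `l i * Vz m α β (-l i) = (1 - Cz β) * Sz` and the same for
`Vdz`, `Sdz`. So `e i = p i * l i / (1 - Cz m α (-l i) β)` has `e i * Vz = p i * Sz = φ i`,
`e i * Vdz = p i * Sdz` on `[α, β]`. By S_BDS `p_i^2 = 1 / ∫ m Sz² ≤ l i / A₀`, so `|p i| ≤ A (1 + l i)`,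
`|e i| ≤ A (1 + l i)^2`, and `|Sz|`, `|Sdz|` are bounded. `norm`, `orth`, `pars` from S_EIG, `dnorm`, `dorth`
from S_DOR, `lsum` from S_TRC. -/
def S_SPC : Prop := ∀ (m : ℝ → ℝ) (x₀ x₁ α β M c : ℝ), Wt m x₀ x₁ α β M c →
  ∃ (ι : Type) (_ : Countable ι) (l e : ι → ℝ) (A : ℝ), Spec m α β l e A

/-! ## Part 4: the free flow -/

/-- S_CVG. The series `VF`, `WF` converge absolutely and uniformly in `x ∈ [α, β]` for each `t > 0` (bounds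
`fbd`, `dbd`, `|co i| ≤ const` by `pars`, S_FRJ), their terms are continuous on `[α, β]` (S_ODE), so `VF t`, `WF t` are continuous on `[α, β]`; by uniform convergence `∫ m VF(t) φ_i = co_i e^(-l_i t)` (`norm`, `orth`). -/
def S_CVG : Prop := ∀ (m : ℝ → ℝ) (x₀ x₁ α β M c : ℝ), Wt m x₀ x₁ α β M c →
  ∀ (ι : Type) [Countable ι] (l e : ι → ℝ) (A : ℝ), Spec m α β l e A →
  ∀ f : ℝ → ℝ, MemLp f 2 (volume.restrict (Icc α β)) → ∀ t : ℝ, 0 < t →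
    (∃ u : ι → ℝ, Summable u ∧ ∀ i, ∀ x ∈ Icc α β,
      |co m α β l e f i * Real.exp (-(l i * t)) * (e i * Vz m α β (-l i) x)| ≤ u i ∧
      |co m α β l e f i * Real.exp (-(l i * t)) * (e i * Vdz m α β (-l i) x)| ≤ u i) ∧
    ContinuousOn (VF m α β l e f t) (Icc α β) ∧ ContinuousOn (WF m α β l e f t) (Icc α β) ∧
    ∀ i, co m α β l e (VF m α β l e f t) i = co m α β l e f i * Real.exp (-(l i * t))

/-- S_LIM. Parseval (`pars`) for `VF t - f`, whose coefficients are `co_i (e^(-l_i t) - 1)` (S_CVG):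
`∫ m (VF t - f)^2 = ∑ co_i^2 (1 - e^(-l_i t))^2 → 0` (`tendsto_tsum_of_dominated_convergence`, bound
`co_i^2`), and `m ≥ m₀ > 0` on `[α, β]`. Then pass to `lintegral` (`ofReal_integral_eq_lintegral_ofReal`). -/
def S_LIM : Prop := ∀ (m : ℝ → ℝ) (x₀ x₁ α β M c : ℝ), Wt m x₀ x₁ α β M c →
  ∀ (ι : Type) [Countable ι] (l e : ι → ℝ) (A : ℝ), Spec m α β l e A →
  ∀ f : ℝ → ℝ, MemLp f 2 (volume.restrict (Icc α β)) →
    Tendsto (fun t : ℝ => ∫⁻ x in Icc α β, ‖VF m α β l e f t x - f x‖ₑ ^ 2) (𝓝[>] 0) (𝓝 0)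

/-- S_ENG. For `t > 0`: `∫ m VF(t)^2 = ∑ co_i^2 e^(-2 l_i t)` (`pars`, S_CVG) and
`∫ WF(t)^2 ≤ ∑ l_i co_i^2 e^(-2 l_i t)`: for a finite set `s` the partial sum `W_s` of `WF` has
`∫ W_s^2 = ∑_{i ∈ s} l_i co_i^2 e^(-2 l_i t)` (`dnorm`, `dorth`), and `W_s → WF` uniformly on `[α, β]`. Integrate
in `t` over `(0, ∞)` (`lintegral_tsum`; `∫_0^∞ e^(-2 l t) dt = 1 / (2 l)`): at most
`∑ co_i^2 (1/2 + 1/(2 l_i)) / min(1, m₀) < ∞`, since the `1 / l_i` are bounded (`lsum`) and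
`∑ co_i^2 < ∞`. -/
def S_ENG : Prop := ∀ (m : ℝ → ℝ) (x₀ x₁ α β M c : ℝ), Wt m x₀ x₁ α β M c →
  ∀ (ι : Type) [Countable ι] (l e : ι → ℝ) (A : ℝ), Spec m α β l e A →
  ∀ f : ℝ → ℝ, MemLp f 2 (volume.restrict (Icc α β)) →
    ∫⁻ t in Ioi (0 : ℝ), ∫⁻ x in Icc α β,
      (‖VF m α β l e f t x‖ₑ ^ 2 + ‖WF m α β l e f t x‖ₑ ^ 2) < ⊤

/-- S_SCA. Let `Z = mulJ (cutJ T R) (fj l g)`, `g i = co_i * e i` (`|g i| ≤ A' (1 + l i)^2`), with `R` so large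
that `8 / R * K < 1`, `K` from S_FAM: `Good (√K) Z` (`cutJ_bd`, S_FRJ with `r = 4 / R`, `Bd.mul`,
`IsJet.mul`). `V = SV vv Z`, `W = SV vd Z`, `Vt = SV vv (sh Z)`, `q = SQ kq Z`: S_SRA, S_SRB. For `t ≥ T` all
`Z k t = 0` (`cutJ_right`). For `0 < t ≤ T / 2` the cut-off jet is `1, 0, 0, …` (`cutJ_left`), so
`Z k t = fj l g k t` and S_SWP gives `V t = VF t`, `W t = WF t` on `[α, β]`: S_LIM, S_ENG; on
`[T/2, T] × [α, β]` `V`, `W` are bounded by continuity. -/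
def S_SCA : Prop := ∀ (m : ℝ → ℝ) (x₀ x₁ α β M c T : ℝ), Wt m x₀ x₁ α β M c → 0 < T →
  ∀ f : ℝ → ℝ, MemLp f 2 (volume.restrict (Icc α β)) →
    ∃ (V Vt W : ℝ → ℝ → ℝ) (q : ℝ → ℝ), Flow m x₀ x₁ α β T f V Vt W q

/-! ## Part 5: from scalar flows to the velocity between the cylinders -/

/-- S_CHR. Change of variables `s = r² / 2` (`lintegral_image_eq_lintegral_abs_deriv_mul` for `r ↦ r^2 / 2`,
injective on `[a, b]`, image `[a²/2, b²/2]`): `∫⁻ ‖√(2s) f(√(2s))‖² ds = ∫⁻ r² ‖f r‖² r dr ≤ b³ ∫⁻ ‖f‖²`;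
measurability: `f` is almost everywhere equal to a measurable function and preimages of null sets under
`s ↦ √(2s)` are null sets (it is bi-Lipschitz between the two intervals). Second part: linear change of
variables. -/
def S_CHR : Prop := ∀ a b : ℝ, 0 < a → a < b →
  (∀ f : ℝ → ℝ, MemLp f 2 (volume.restrict (Icc a b)) →
    MemLp (fun s => √(2 * s) * f (√(2 * s))) 2 (volume.restrict (Icc (a ^ 2 / 2) (b ^ 2 / 2)))) ∧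
  ∀ G : ℝ → ℝ≥0∞, ∫⁻ s in Icc (a ^ 2) (b ^ 2), G (s / 2) = 2 * ∫⁻ s in Icc (a ^ 2 / 2) (b ^ 2 / 2), G s

/-- S_CHA. As S_CHR for `r = e^(-x)`, `s = r² = e^(-2x)`
(`lintegral_image_eq_lintegral_abs_deriv_mul` for `x ↦ e^(-2x)`: the derivative is at most `2 b²`). -/
def S_CHA : Prop := ∀ a b : ℝ, 0 < a → a < b →
  (∀ f : ℝ → ℝ, MemLp f 2 (volume.restrict (Icc a b)) →
    MemLp (fun x => f (Real.exp (-x))) 2 (volume.restrict (Icc (-Real.log b) (-Real.log a)))) ∧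
  ∃ C : ℝ≥0∞, C ≠ ⊤ ∧ ∀ G : ℝ → ℝ≥0∞, ∫⁻ s in Icc (a ^ 2) (b ^ 2), G (-(Real.log s / 2)) ≤
    C * ∫⁻ x in Icc (-Real.log b) (-Real.log a), G x

/-- S_SQM. `f` is equal to a measurable function `g` outside a null set `N ⊂ [a, b]`; `s ↦ √s` maps
`[a², b²]` onto `[a, b]`, its inverse `r ↦ r²` is Lipschitz on `[a, b]`, so the preimage of `N` is a null set and
`f ∘ √ = g ∘ √` almost everywhere. -/
def S_SQM : Prop := ∀ a b : ℝ, 0 < a → a < b → ∀ f : ℝ → ℝ,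
  AEStronglyMeasurable f (volume.restrict (Icc a b)) →
    AEMeasurable (fun s => f (√s)) (volume.restrict (Icc (a ^ 2) (b ^ 2)))

/-- S_RTF. S_SCA for `m s = 1 / (2 s)` on `(a²/8, 2b²)`, `α = a²/2`, `β = b²/2`, `M = 4/a²`, `c = 2/b²`
(`m' = -m/s ≤ -(2/b²) m`), and the profile `√(2s) f(√(2s))` (S_CHR). `Ω t s = V t (s/2) / s`,
`Ω1 t s = W t (s/2) / (2 s) - V t (s/2) / s²`, `Ω2` its derivative; heat equation: with `V_t = 2σ V_σσ + q` at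
`σ = s/2`, `4 s Ω2 + 8 Ω1 = V_σσ(t, s/2) ... ` (compute: `s Ω = V(s/2)`, twice differentiated
`2 Ω1 + s Ω2 = V_σσ / 4`, so `4 s Ω2 + 8 Ω1 = V_σσ = V_t/(2σ) - q/(2σ) = (V_t - q)/s` and `Ωt = V_t/s`).
Limit: `√s Ω - f √s = (V(s/2) - √s f √s) / √s`, `s ≥ a²`, S_CHR with `2 · (s/2) = s`. -/
def S_RTF : Prop := ∀ a b T : ℝ, 0 < a → a < b → 0 < T →
  ∀ f : ℝ → ℝ, MemLp f 2 (volume.restrict (Icc a b)) →
  ∃ (Ω Ωt Ω1 Ω2 : ℝ → ℝ → ℝ) (q : ℝ → ℝ), Rot (a ^ 2 / 4) (4 * b ^ 2) Ω Ωt Ω1 Ω2 q ∧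
    (∀ t, 0 < t → Ω t (a ^ 2) = 0 ∧ Ω t (b ^ 2) = 0) ∧
    (∀ t, T ≤ t → q t = 0 ∧ ∀ s, Ω t s = 0) ∧
    Tendsto (fun t : ℝ => ∫⁻ s in Icc (a ^ 2) (b ^ 2), ‖√s * Ω t s - f (√s)‖ₑ ^ 2) (𝓝[>] 0) (𝓝 0) ∧
    ∫⁻ t in Ioi (0 : ℝ), ∫⁻ s in Icc (a ^ 2) (b ^ 2), (‖Ω t s‖ₑ ^ 2 + ‖Ω1 t s‖ₑ ^ 2) < ⊤

/-- S_AXF. S_SCA for `m x = e^(-2x)` on `(-log(2b), -log(a/2))`, `α = -log b`, `β = -log a`, `M = 4b²`,
`c = 2`, and the profile `h(e^(-x))` (S_CHA). `A t s = V t (-(log s)/2)`, `A1 t s = -W t (..) / (2 s)`,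
`A2 t s = V_xx / (4 s²) + W / (2 s²)`; heat equation: `4 s A2 + 4 A1 = V_xx / s = V_t - q` because
`m(-(log s)/2) = s`, `V_xx = m (V_t - q)`. -/
def S_AXF : Prop := ∀ a b T : ℝ, 0 < a → a < b → 0 < T →
  ∀ h : ℝ → ℝ, MemLp h 2 (volume.restrict (Icc a b)) →
  ∃ (A At A1 A2 : ℝ → ℝ → ℝ) (Q : ℝ → ℝ), Axi (a ^ 2 / 4) (4 * b ^ 2) A At A1 A2 Q ∧
    (∀ t, 0 < t → A t (a ^ 2) = 0 ∧ A t (b ^ 2) = 0) ∧
    (∀ t, T ≤ t → Q t = 0 ∧ ∀ s, A t s = 0) ∧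
    Tendsto (fun t : ℝ => ∫⁻ s in Icc (a ^ 2) (b ^ 2), ‖A t s - h (√s)‖ₑ ^ 2) (𝓝[>] 0) (𝓝 0) ∧
    ∫⁻ t in Ioi (0 : ℝ), ∫⁻ s in Icc (a ^ 2) (b ^ 2), (‖A t s‖ₑ ^ 2 + ‖A1 t s‖ₑ ^ 2) < ⊤

/-- S_LAP. Chain rule: `N2` has the derivative `2 x_j proj j + 2 x_k proj k`; the formulas hold in the
open set `N2 ∈ (N₀, N₁)`, so they may be differentiated again (`Filter.EventuallyEq.fderiv_eq`). With
`N = N2 x`: `∑_i ∂_i∂_i g(N) = 4 N g2 + 4 g1` and `∑_i ∂_i∂_i (x_l g(N)) = x_l (4 N g2 + 4 g1) + 2 ∂_l g(N) =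
x_l (4 N g2 + 8 g1)` for `l = j, k`. (Sums over `i`: only `i = j` and `i = k` contribute;
`Finset.sum_eq_add` or `Finset.sum_ite_eq`.) -/
def S_LAP : Prop := ∀ (d : ℕ) (j k : Fin d) (N₀ N₁ : ℝ) (g g1 g2 : ℝ → ℝ), j ≠ k →
  (∀ s ∈ Ioo N₀ N₁, HasDerivAt g (g1 s) s) → (∀ s ∈ Ioo N₀ N₁, HasDerivAt g1 (g2 s) s) →
  ∀ x : Sp d, N2 j k x ∈ Ioo N₀ N₁ →
    (∀ i, pd i (fun y => g (N2 j k y)) x = if i = j ∨ i = k then 2 * x i * g1 (N2 j k x) else 0) ∧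
    (∑ i, pd i (pd i fun y => g (N2 j k y)) x = 4 * N2 j k x * g2 (N2 j k x) + 4 * g1 (N2 j k x)) ∧
    ∀ l, l = j ∨ l = k →
      (∀ i, pd i (fun y => y l * g (N2 j k y)) x = (if i = l then g (N2 j k x) else 0) +
        if i = j ∨ i = k then x l * (2 * x i * g1 (N2 j k x)) else 0) ∧
      (∑ i, pd i (pd i fun y => y l * g (N2 j k y)) x =
        x l * (4 * N2 j k x * g2 (N2 j k x) + 8 * g1 (N2 j k x)))

/-- S_ARG. `cut j k` is the preimage of `Complex.slitPlane` under the continuous linear map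
`x ↦ x j + i x k`; `Complex.arg` is the imaginary part of `Complex.log`, which is smooth on the slit plane
(`Complex.contDiffAt_log`), with derivative `1/z`: the derivative of the angle in the direction `v` is
`Im (v / z) = (v_k x_j - v_j x_k) / (x_j² + x_k²)`. -/
def S_ARG : Prop := ∀ (d : ℕ) (j k : Fin d), j ≠ k → IsOpen (cut j k) ∧
  ContDiffOn ℝ ∞ (fun x : Sp d => Complex.arg ⟨x j, x k⟩) (cut j k) ∧
  ∀ x ∈ cut j k, ∀ i, pd i (fun y : Sp d => Complex.arg ⟨y j, y k⟩) x =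
    if i = j then -(x k) / N2 j k x else if i = k then x j / N2 j k x else 0

/-- S_PRI. With `s = s₀ + σ (z.2 - s₀)` the integral is `(z.2 - s₀) ∫_0^1 F z.1 (s₀ + σ (z.2 - s₀)) dσ`;
smoothness of an integral over `[0, 1]` with parameters: `Pool/Agent/Helper186/ParamInt.lean` or
`Pool/Agent/Q235/MO/Int.lean` (the point stays in the rectangle by convexity; the open set of all
`(σ, z)` with `s₀ + σ (z.2 - s₀) ∈ (N₀, N₁)`). -/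
def S_PRI : Prop := ∀ (N₀ N₁ s₀ : ℝ) (F : ℝ → ℝ → ℝ), s₀ ∈ Ioo N₀ N₁ →
  ContDiffOn ℝ ∞ (fun z : ℝ × ℝ => F z.1 z.2) (Ioi 0 ×ˢ Ioo N₀ N₁) →
    ContDiffOn ℝ ∞ (fun z : ℝ × ℝ => ∫ s in s₀..z.2, F z.1 s) (Ioi 0 ×ˢ Ioo N₀ N₁) ∧
    ∀ t s : ℝ, 0 < t → s ∈ Ioo N₀ N₁ → HasDerivAt (fun y => ∫ s in s₀..y, F t s) (F t s) s

/-- S_MOM. Components (S_LAP, S_ARG, S_PRI; `Ω = Ω t N`, `N = N2 x`). Transport: `∑_i u_i ∂_i` is
`Ω (-x_k ∂_j + x_j ∂_k)` plus axial derivatives, it kills functions of `N` and maps `x_j` to `-x_k Ω`, `x_k` to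
`x_j Ω`. So: component `j` (`u_j = -x_k Ω`): `-x_k Ωt - x_j Ω² + x_k (4NΩ2 + 8Ω1) + (x_j Ω² + q x_k / N) = 0`;
component `k`: `x_j Ωt - x_k Ω² - x_j (4NΩ2 + 8Ω1) + (x_k Ω² - q x_j / N) = 0`; other components:
`At - (4NA2 + 4A1) - Q = 0`. Divergence: `-2 x_j x_k Ω1 + 2 x_j x_k Ω1 + 0`. If `q t = 0` for this `t` the
term with the angle in `pre` is `0 * arg` and no cut is needed. -/
def S_MOM : Prop := ∀ (d : ℕ) (j k : Fin d) (N₀ N₁ s₀ : ℝ) (Ω Ωt Ω1 Ω2 : ℝ → ℝ → ℝ) (q : ℝ → ℝ)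
  (A At A1 A2 : Fin d → ℝ → ℝ → ℝ) (Q : Fin d → ℝ → ℝ), j ≠ k → 0 < N₀ → s₀ ∈ Ioo N₀ N₁ →
  Rot N₀ N₁ Ω Ωt Ω1 Ω2 q → (∀ i, Axi N₀ N₁ (A i) (At i) (A1 i) (A2 i) (Q i)) →
  ∀ (t : ℝ) (x : Sp d), 0 < t → N2 j k x ∈ Ioo N₀ N₁ → (x ∈ cut j k ∨ q t = 0) →
    (∀ n, deriv (fun s => vel j k Ω A s x n) t
      + ∑ i, vel j k Ω A t x i * pd i (fun y => vel j k Ω A t y n) x
      - ∑ i, pd i (pd i fun y => vel j k Ω A t y n) x + pd n (pre j k s₀ Ω q Q t) x = 0) ∧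
    ∑ i, pd i (fun y => vel j k Ω A t y i) x = 0

/-- S_SMO. Compositions of smooth functions (`contDiffOn_piLp`/`contDiffOn_euclidean` for the vector;
`(t, x) ↦ (t, N2 x)` is smooth and maps the set to `Ioi 0 ×ˢ Ioo N₀ N₁`); S_PRI with `F = Ω²`, S_ARG. In the
second statement the term with the angle is `0` for `t > 0`. -/
def S_SMO : Prop := ∀ (d : ℕ) (j k : Fin d) (N₀ N₁ s₀ : ℝ) (Ω Ωt Ω1 Ω2 : ℝ → ℝ → ℝ) (q : ℝ → ℝ)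
  (A At A1 A2 : Fin d → ℝ → ℝ → ℝ) (Q : Fin d → ℝ → ℝ), j ≠ k → 0 < N₀ → s₀ ∈ Ioo N₀ N₁ →
  Rot N₀ N₁ Ω Ωt Ω1 Ω2 q → (∀ i, Axi N₀ N₁ (A i) (At i) (A1 i) (A2 i) (Q i)) →
    IsOpen {x : Sp d | N2 j k x ∈ Ioo N₀ N₁} ∧
    ContDiffOn ℝ ∞ (fun z : ℝ × Sp d => vel j k Ω A z.1 z.2)
      (Ioi 0 ×ˢ {x : Sp d | N2 j k x ∈ Ioo N₀ N₁}) ∧
    ContDiffOn ℝ ∞ (fun z : ℝ × Sp d => pre j k s₀ Ω q Q z.1 z.2)
      (Ioi 0 ×ˢ ({x : Sp d | N2 j k x ∈ Ioo N₀ N₁} ∩ cut j k)) ∧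
    ((∀ t, 0 < t → q t = 0) → ContDiffOn ℝ ∞ (fun z : ℝ × Sp d => pre j k s₀ Ω q Q z.1 z.2)
      (Ioi 0 ×ˢ {x : Sp d | N2 j k x ∈ Ioo N₀ N₁}))

/-- S_GRB. From the formulas of S_LAP with `|x_j|, |x_k| ≤ b` (as `N2 x ≤ b²`):
`|∂_i u_j|, |∂_i u_k| ≤ |Ω| + 2 b² |Ω1|`, `|∂_i A_l(N)| ≤ 2 b |A1_l|`. -/
def S_GRB : Prop := ∀ (d : ℕ) (j k : Fin d) (a b : ℝ), j ≠ k → 0 < a → a < b →
  ∃ C : ℝ≥0∞, C ≠ ⊤ ∧ ∀ (Ω Ωt Ω1 Ω2 : ℝ → ℝ → ℝ) (q : ℝ → ℝ)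
  (A At A1 A2 : Fin d → ℝ → ℝ → ℝ) (Q : Fin d → ℝ → ℝ),
  Rot (a ^ 2 / 4) (4 * b ^ 2) Ω Ωt Ω1 Ω2 q →
  (∀ i, Axi (a ^ 2 / 4) (4 * b ^ 2) (A i) (At i) (A1 i) (A2 i) (Q i)) →
  ∀ (t : ℝ) (x : Sp d), 0 < t → x ∈ shell j k a b →
    ∑ i, ∑ n, ‖pd i (fun y => vel j k Ω A t y n) x‖ₑ ^ 2 ≤
      C * (‖Ω t (N2 j k x)‖ₑ ^ 2 + ‖Ω1 t (N2 j k x)‖ₑ ^ 2 + ∑ i, ‖A1 i t (N2 j k x)‖ₑ ^ 2)

/-- S_CVL. Componentwise: the components `j`, `k` of `vel - dat` are `-x_k (Ω - f(r)/r)`, `x_j (Ω - f(r)/r)`,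
`r = √N`, with squares summing to `(r Ω - f r)²`. (`Pool.Agent.Q61.NC.enorm_sq_eq` in `Pos.lean`.) -/
def S_CVL : Prop := ∀ (d : ℕ) (j k : Fin d) (Ω : ℝ → ℝ → ℝ) (A : Fin d → ℝ → ℝ → ℝ) (f : ℝ → ℝ)
  (h : Fin d → ℝ → ℝ), j ≠ k → ∀ (t : ℝ) (x : Sp d), 0 < N2 j k x →
    ‖vel j k Ω A t x - dat j k f h x‖ₑ ^ 2 ≤
      ‖√(N2 j k x) * Ω t (N2 j k x) - f (√(N2 j k x))‖ₑ ^ 2 +
        ∑ i, ‖A i t (N2 j k x) - h i (√(N2 j k x))‖ₑ ^ 2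

/-- S_SHL. Reduce to the plane of the coordinates `j`, `k` (the other coordinates run over `[-R, R]`;
model: `box_lintegral` in `Pool/Agent/Q61/NC/Pos.lean`, or `MeasurableEquiv.piEquivPiSubtypeProd`), then polar
coordinates (`lintegral_comp_polarCoord_symm`) and `s = r²`. Only an upper bound is needed: one may also
split the shell into `|x_j| ≥ a/2` and `|x_k| ≥ a/2` (one of them holds since `N2 ≥ a²`) and substitute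
`s = x_j² + x_k²` for the large coordinate, `ds = 2 |x_j| dx_j ≥ a dx_j`. For `G` only almost everywhere
measurable replace it by a measurable majorant: `G ≤ G'` outside a measurable null set, where `G' = ⊤` is put
on the null set. -/
def S_SHL : Prop := ∀ (d : ℕ) (j k : Fin d) (a b R : ℝ), j ≠ k → 0 < a → a < b →
  ∃ C : ℝ≥0∞, C ≠ ⊤ ∧ ∀ G : ℝ → ℝ≥0∞, AEMeasurable G (volume.restrict (Icc (a ^ 2) (b ^ 2))) →
    ∫⁻ x in {x : Sp d | x ∈ shell j k a b ∧ ∀ i, |x i| ≤ R}, G (N2 j k x) ≤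
      C * ∫⁻ s in Icc (a ^ 2) (b ^ 2), G s

/-- S_STP. The final assembly: `u = vel`, `p = pre` with `Ω` from S_RTF (in the second part `Ω = 0`, `q = 0`),
`A i` from S_AXF for each `i`, `s₀ = a²`; smoothness S_SMO, momentum S_MOM (`0 < a²/4`), walls and rest from
S_RTF, S_AXF, initial condition S_CVL and S_SHL (measurability S_SQM), energy S_GRB and S_SHL. -/
def S_STP : Prop := ∀ (d : ℕ) (j k : Fin d) (a b T : ℝ), j ≠ k → 0 < a → a < b → 0 < T →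
  ∀ h : Fin d → ℝ → ℝ, (∀ i, MemLp (h i) 2 (volume.restrict (Icc a b))) →
    (∀ f : ℝ → ℝ, MemLp f 2 (volume.restrict (Icc a b)) →
      ∃ (u : ℝ → Sp d → Sp d) (p : ℝ → Sp d → ℝ),
        StopsIn (shell j k a b ∩ cut j k) (cylinders j k a b) T (dat j k f h) u p) ∧
    ∃ (u : ℝ → Sp d → Sp d) (p : ℝ → Sp d → ℝ),
      StopsIn (shell j k a b) (cylinders j k a b) T (dat j k (fun _ => 0) h) u p

end Pool.Agent.Q62.CC
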