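import Pool.Agent.Q62.CC.Stm

/-!
# Project CC, third part: regions with an angle function
-/

set_option autoImplicit false

open Set Filter Topology MeasureTheory
open scoped ENNReal ContDiff

namespace Pool.Agent.Q62.CC

open Pool.Agent.Q61.NC (Sp pd)

/-- `θ` is a continuous angle function on `N`: the polar angle of `(x j, x k)`. -/
structure IsAngle {d : ℕ} (j k : Fin d) (N : Set (Sp d)) (θ : Sp d → ℝ) : Prop where
  cont : ContinuousOn θ N
  cos : ∀ x ∈ N, x j = √(N2 j k x) * Real.cos (θ x)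
  sin : ∀ x ∈ N, x k = √(N2 j k x) * Real.sin (θ x)

/-- S_ANG. Let `x₀ ∈ N`, `α = θ x₀`, `L x = exp(-iα) (x j + i x k)` (a real linear map to `ℂ`). By the
hypothesis `L x = √(N2 x) * exp(i (θ x - α))`, `L x₀ > 0` is in the slit plane. Near `x₀` one has
`|θ x - α| < π` by continuity, so `θ x = α + Complex.arg (L x)` (`Complex.arg_mul_cos_add_sin_mul_I` with
`√(N2 x) > 0` and `θ x - α ∈ (-π, π]`). `Complex.arg = Im log` is smooth on the slit plane (as in
`Pool/Agent/Q259/CC/Arg.lean`, proof of S_ARG) and its derivative at `L x₀` in the direction `L v` is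
`Im (L v / L x₀) = Im ((v j + i v k) / (x₀ j + i x₀ k)) = (v k x₀ j - v j x₀ k) / N2 x₀`. -/
def S_ANG : Prop := ∀ (d : ℕ) (j k : Fin d), j ≠ k → ∀ (N : Set (Sp d)) (θ : Sp d → ℝ), IsOpen N →
  (∀ x ∈ N, 0 < N2 j k x) → IsAngle j k N θ →
    ContDiffOn ℝ ∞ θ N ∧
    ∀ x ∈ N, ∀ i, pd i θ x =
      if i = j then -(x k) / N2 j k x else if i = k then x j / N2 j k x else 0

/-- S_CUA. `Complex.norm_mul_cos_arg`, `Complex.norm_mul_sin_arg`, `‖⟨a, b⟩‖ = √(a ^ 2 + b ^ 2)`; openness and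
continuity from S_ARG. -/
def S_CUA : Prop := ∀ (d : ℕ) (j k : Fin d), j ≠ k → IsOpen (cut j k) ∧
  IsAngle j k (cut j k) fun x : Sp d => Complex.arg ⟨x j, x k⟩

end Pool.Agent.Q62.CC
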